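import Pool.Agent.Helper13.RS.St

/-!
# Project RS: application of the probabilistic core
-/

set_option autoImplicit false

namespace Pool.Agent.Helper13.RS

open Finset

theorem mem_Pr {u v : ℝ} {p : ℕ} (hv : 0 ≤ v) : p ∈ Pr u v ↔ p.Prime ∧ u < (p : ℝ) ∧ (p : ℝ) ≤ v := by
  classical
  unfold Pr
  rw [Finset.mem_filter, Finset.mem_Icc]
  constructor
  · rintro ⟨⟨_, h2⟩, h3, h4⟩
    exact ⟨h3, h4, (Nat.le_floor_iff hv).1 h2⟩
  · rintro ⟨h1, h2, h3⟩
    exact ⟨⟨h1.one_lt.le, Nat.le_floor h3⟩, h1, h2⟩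

/-- the covering can be completed: classes `a` up to `w`, `r` up to `z`, `0` up to `x / T` -/
def Compl (x y : ℕ) (w z T : ℝ) (a : ℕ → ℤ) (r : ↥(Pr w z) → ℕ) : Prop :=
  ∃ g : ℕ → ℤ, (∀ n : ℕ, 1 ≤ n → n ≤ y → ∃ p : ℕ, p.Prime ∧ p ≤ x ∧ (n : ℤ) ≡ g p [ZMOD (p : ℤ)]) ∧
    (∀ p : ℕ, p.Prime → (p : ℝ) ≤ w → g p ≡ a p [ZMOD (p : ℤ)]) ∧
    (∀ s : ↥(Pr w z), g s ≡ (r s : ℤ) [ZMOD ((s : ℕ) : ℤ)]) ∧
    (∀ p : ℕ, p.Prime → z < (p : ℝ) → (p : ℝ) ≤ x / T → (p : ℤ) ∣ g p)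

theorem red {x y : ℕ} {w z T : ℝ} {a : ℕ → ℤ} (hw : 0 ≤ w) (hwz : w ≤ z) (D : Finset ℕ)
    (hD1 : ∀ n ∈ D, 1 ≤ n ∧ n ≤ y ∧ Avd w a n)
    (hD2 : ∀ n ∈ D, ∀ p : ℕ, p.Prime → z < (p : ℝ) → (p : ℝ) ≤ x / T → ¬ p ∣ n)
    (r : ↥(Pr w z) → ℕ) (hr : r ∈ Om (Pr w z)) (h : Compl x y w z T a r) :
    ∃ b : ℕ → ℕ, ∀ n ∈ D, Av (Pr w z) r n → ∃ p ∈ Pr ((x : ℝ) / T) x, n % p = b p := by
  obtain ⟨g, hg1, hg2, hg3, hg4⟩ := h
  refine ⟨fun p => (g p % (p : ℤ)).toNat, fun n hn hav => ?_⟩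
  obtain ⟨h1, h2, h3⟩ := hD1 n hn
  obtain ⟨p, hp, hpx, hc⟩ := hg1 n h1 h2
  have hz0 : 0 ≤ z := hw.trans hwz
  have hp0 : (0 : ℤ) < p := by exact_mod_cast hp.pos
  by_cases hpw : (p : ℝ) ≤ w
  · exact absurd (hc.trans (hg2 p hp hpw)) (h3 p hp hpw)
  push Not at hpw
  by_cases hpz : (p : ℝ) ≤ z
  · exfalso
    have hmem : p ∈ Pr w z := (mem_Pr hz0).2 ⟨hp, hpw, hpz⟩
    have h4 := hc.trans (hg3 ⟨p, hmem⟩)
    have h5 : r ⟨p, hmem⟩ < p := by
      unfold Om at hr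
      rw [Fintype.mem_piFinset] at hr
      exact Finset.mem_range.1 (hr ⟨p, hmem⟩)
    apply hav ⟨p, hmem⟩
    have h6 : n ≡ r ⟨p, hmem⟩ [MOD p] := (Int.natCast_modEq_iff).1 h4
    have h7 : n % p = r ⟨p, hmem⟩ % p := h6
    rw [Nat.mod_eq_of_lt h5] at h7
    exact h7
  push Not at hpz
  by_cases hpT : (p : ℝ) ≤ x / T
  · exfalso
    have h4 := hg4 p hp hpz hpT
    have h5 : (p : ℤ) ∣ (n : ℤ) := (Int.ModEq.dvd_iff hc).2 h4
    exact hD2 n hn p hp hpz hpT (by exact_mod_cast h5)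
  push Not at hpT
  refine ⟨p, (mem_Pr (Nat.cast_nonneg x)).2 ⟨hp, hpT, by exact_mod_cast hpx⟩, ?_⟩
  have h4 : (n : ℤ) % p = g p % p := hc
  have h5 : ((n % p : ℕ) : ℤ) = g p % p := by
    rw [← h4]
    push_cast
    rfl
  dsimp only
  rw [← h5, Int.toNat_natCast]

theorem V_ge (R : Finset ℕ) (hR : ∀ s ∈ R, 2 ≤ s) :
    Real.exp (-(∑ s ∈ R, 1 / (s : ℝ)) - 1) ≤ ∏ s ∈ R, (1 - 1 / (s : ℝ)) := by
  have h1 : ∏ s ∈ R, Real.exp (-(1 / (s : ℝ) + (1 / (s : ℝ)) ^ 2)) ≤ ∏ s ∈ R, (1 - 1 / (s : ℝ)) := by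
    refine Finset.prod_le_prod (fun s _ => (Real.exp_pos _).le) fun s hs => ?_
    have h2 : (2 : ℝ) ≤ s := by exact_mod_cast hR s hs
    refine Pool.Agent.Helper13.JC.one_sub_ge_exp (by positivity) ?_
    exact one_div_le_one_div_of_le (by norm_num) h2
  refine le_trans ?_ h1
  rw [← Real.exp_sum]
  refine Real.exp_le_exp.2 ?_
  rw [Finset.sum_neg_distrib, Finset.sum_add_distrib]
  have h2 := Pool.Agent.Helper13.JC.sum_inv_sq_le hR
  have h3 : ∑ s ∈ R, (1 / (s : ℝ)) ^ 2 = ∑ s ∈ R, 1 / (s : ℝ) ^ 2 := by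
    refine Finset.sum_congr rfl fun s _ => ?_
    rw [one_div, one_div, inv_pow]
  rw [h3]
  linarith

theorem Pr_nonempty {x : ℕ} {T : ℝ} (hx : 2 ≤ x) (hT : 2 ≤ T) : (Pr ((x : ℝ) / T) x).Nonempty := by
  obtain ⟨p, hp, h1, h2⟩ := Nat.exists_prime_lt_and_le_two_mul (x / 2) (by omega)
  refine ⟨p, (mem_Pr (Nat.cast_nonneg x)).2 ⟨hp, ?_, by exact_mod_cast (by omega : p ≤ x)⟩⟩
  have h3 : x < 2 * p := by omega
  have h4 : (x : ℝ) < 2 * p := by exact_mod_cast h3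
  rw [div_lt_iff₀ (by linarith)]
  have h5 : (0 : ℝ) < p := by exact_mod_cast hp.pos
  nlinarith

open Classical in
/-- application of the core -/
theorem app (hPA : StPA) {CS : ℝ} (hSG : ∀ w z : ℝ, 2 ≤ w → w ≤ z →
      Real.log w * Real.exp (∑ s ∈ Pr w z, 1 / (s : ℝ)) ≤ CS * Real.log z)
    (x y : ℕ) (w z T ε K₀ E : ℝ) (a : ℕ → ℤ) (D : Finset ℕ) (M : ℕ → ℝ) (hε : 0 < ε)
    (hx : 2 ≤ x) (hw : 4 ≤ w) (hwz : w ≤ z) (hT : 2 ≤ T) (hzT : z * T ≤ x)
    (hyT : (y : ℝ) * T < x * w) (hexp : 4 * Real.log y / w ≤ Real.log (1 + ε / 16))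
    (hE : Real.exp 1 ≤ E) (hK : 0 ≤ K₀)
    (hD1 : ∀ n ∈ D, 1 ≤ n ∧ n ≤ y ∧ Avd w a n)
    (hD2 : ∀ n ∈ D, ∀ p : ℕ, p.Prime → z < (p : ℝ) → (p : ℝ) ≤ x / T → ¬ p ∣ n)
    (hM : ∀ p ∈ Pr ((x : ℝ) / T) x, ∀ r : ℕ, ((D.filter fun n => n % p = r).card : ℝ) ≤ M p)
    (h4 : 16 * Real.exp 1 * (CS * Real.log z) ≤ ε * (D.card * Real.log w))
    (h5a : ((Pr ((x : ℝ) / T) x).card : ℝ) * K₀ * (4 * Real.exp 1 * (CS * Real.log z)) ≤
      D.card * Real.log w)
    (h5b : E * (∑ p ∈ Pr ((x : ℝ) / T) x, M p) * (4 * Real.exp 1) ≤ D.card)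
    (h6 : (x : ℝ) ^ 2 * (Real.exp 1 / E) ^ K₀ ≤ ε / 2) :
    (((Om (Pr w z)).filter fun r => Compl x y w z T a r).card : ℝ) ≤
      ε * ∏ s ∈ Pr w z, (s : ℝ) := by
  have hz0 : 0 ≤ z := by linarith
  have hxpos : (0 : ℝ) < x := by exact_mod_cast (by omega : 0 < x)
  set R := Pr w z with hR
  set P := Pr ((x : ℝ) / T) x with hP
  set σ := ∑ s ∈ R, 1 / (s : ℝ) with hσ
  have hRm : ∀ s ∈ R, s.Prime ∧ w < (s : ℝ) ∧ (s : ℝ) ≤ z := fun s hs => (mem_Pr hz0).1 hs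
  have hPm : ∀ p ∈ P, p.Prime ∧ (x : ℝ) / T < (p : ℝ) ∧ (p : ℝ) ≤ x := fun p hp =>
    (mem_Pr (Nat.cast_nonneg x)).1 hp
  have hR3 : ∀ s ∈ R, 3 ≤ s := fun s hs => by
    have h := (hRm s hs).2.1
    have h' : (4 : ℝ) < s := by linarith
    have h'' : 4 < s := by exact_mod_cast h'
    omega
  have hlw : 0 < Real.log w := Real.log_pos (by linarith)
  have hσ0 : Real.exp σ ≤ CS * Real.log z / Real.log w := by
    rw [le_div_iff₀ hlw]
    have := hSG w z (by linarith) hwz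
    rw [← hR, ← hσ] at this
    linarith
  set V := ∏ s ∈ R, (1 - 1 / (s : ℝ)) with hV
  have hVge : Real.exp (-σ - 1) ≤ V := V_ge R fun s hs => by have := hR3 s hs; omega
  have hVe : 1 ≤ Real.exp 1 * (CS * Real.log z / Real.log w) * V := by
    have h7 : Real.exp (-σ - 1) * (Real.exp 1 * Real.exp σ) = 1 := by
      rw [← Real.exp_add, ← Real.exp_add, ← Real.exp_zero]
      congr 1
      ring
    have h8 : Real.exp 1 * Real.exp σ ≤ Real.exp 1 * (CS * Real.log z / Real.log w) :=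
      mul_le_mul_of_nonneg_left hσ0 (Real.exp_pos 1).le
    have h9 := mul_le_mul h8 hVge (Real.exp_pos _).le
      ((by positivity : 0 ≤ Real.exp 1 * Real.exp σ).trans h8)
    linarith
  -- `Q = e CS log z / log w`
  set Q := Real.exp 1 * (CS * Real.log z / Real.log w) with hQ
  have hQlw : Q * Real.log w = Real.exp 1 * (CS * Real.log z) := by
    rw [hQ]
    field_simp
  have hV0 : 0 ≤ V := (Real.exp_pos _).le.trans hVge
  have hQ0 : 0 < Q := by
    by_contra hcon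
    push Not at hcon
    have := mul_nonpos_of_nonpos_of_nonneg hcon hV0
    linarith
  have hD0 : (0 : ℝ) ≤ D.card := Nat.cast_nonneg _
  -- the subset relation
  have hsub : (Om R).filter (fun r => Compl x y w z T a r) ⊆
      (Om R).filter fun r => ∃ b : ℕ → ℕ, ∀ n ∈ D, Av R r n → ∃ p ∈ P, n % p = b p := by
    intro r hr
    rw [Finset.mem_filter] at hr ⊢
    exact ⟨hr.1, red (by linarith) hwz D hD1 hD2 r hr.1 hr.2⟩
  have hcard : (((Om R).filter fun r => Compl x y w z T a r).card : ℝ) ≤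
      (((Om R).filter fun r => ∃ b : ℕ → ℕ, ∀ n ∈ D, Av R r n → ∃ p ∈ P, n % p = b p).card : ℝ) := by
    exact_mod_cast Finset.card_le_card hsub
  refine hcard.trans ?_
  refine core R P D hR3 (fun p hp => (hPm p hp).1.one_lt.le) M K₀ E ε σ hε hE hK hσ hM ?_ ?_ ?_ ?_
    (Pr_nonempty hx hT) ?_
  · -- differences
    intro p hp n hn n' hn' hmod hne s hs hmod'
    obtain ⟨hpp, hpT, hpx⟩ := hPm p hp
    obtain ⟨hsp, hsw, hsz⟩ := hRm s hs
    have hTpos : 0 < T := by linarith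
    have hzx : z ≤ x / T := by
      rw [le_div_iff₀ hTpos]
      exact hzT
    have hsp' : s ≠ p := by
      intro h
      rw [h] at hsz
      linarith
    have hcop : Nat.Coprime s p := (Nat.coprime_primes hsp hpp).2 hsp'
    -- w.l.o.g. n < n'
    have key : ∀ u v : ℕ, u < v → v ≤ y → u % p = v % p → u % s = v % s → False := by
      intro u v huv hvy h7 h8
      have h9 : p ∣ v - u := (Nat.modEq_iff_dvd' huv.le).1 h7
      have h10 : s ∣ v - u := (Nat.modEq_iff_dvd' huv.le).1 h8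
      have h11 : s * p ∣ v - u := Nat.Coprime.mul_dvd_of_dvd_of_dvd hcop h10 h9
      have h12 : s * p ≤ v - u := Nat.le_of_dvd (by omega) h11
      have h13 : s * p ≤ y := by omega
      have h14 : (s : ℝ) * p ≤ y := by exact_mod_cast h13
      have h15 : (x : ℝ) < p * T := by
        rw [div_lt_iff₀ hTpos] at hpT
        exact hpT
      have h16 : (x : ℝ) * w ≤ (p * T) * s :=
        mul_le_mul h15.le hsw.le (by linarith) (by positivity)
      have h17 : (s : ℝ) * p * T ≤ y * T := mul_le_mul_of_nonneg_right h14 hTpos.le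
      have h18 : (p : ℝ) * T * s = s * p * T := by ring
      linarith
    rcases lt_or_gt_of_ne hne with h | h
    · exact key n n' h (hD1 n' hn').2.1 hmod hmod'
    · exact key n' n h (hD1 n hn).2.1 hmod.symm hmod'.symm
  · -- pairs
    intro n hn n' hn' hne
    have h7 := hPA R w y n n' hw (fun s hs => ⟨(hRm s hs).1, (hRm s hs).2.1⟩) (hD1 n hn).2.1
      (hD1 n' hn').2.1 hne
    refine h7.trans ?_
    rw [← Real.le_log_iff_exp_le (by positivity)]
    exact hexp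
  · -- first moment is large
    rw [div_le_iff₀ hε]
    have h7 : 16 * Q ≤ ε * D.card := by
      have h8 : 16 * Q * Real.log w ≤ ε * D.card * Real.log w := by
        have e : 16 * Q * Real.log w = 16 * (Q * Real.log w) := by ring
        rw [e, hQlw]
        linarith
      exact le_of_mul_le_mul_right h8 hlw
    have h9 := mul_le_mul_of_nonneg_right h7 hV0
    nlinarith
  · -- capacity
    have h7 : (P.card : ℝ) * K₀ ≤ D.card * V / 4 := by
      have h8 : (P.card : ℝ) * K₀ * (4 * Q) ≤ D.card := by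
        have h9 : (P.card : ℝ) * K₀ * (4 * Q) * Real.log w ≤ D.card * Real.log w := by
          have e : (P.card : ℝ) * K₀ * (4 * Q) * Real.log w =
              (P.card : ℝ) * K₀ * (4 * (Q * Real.log w)) := by ring
          rw [e, hQlw]
          linarith
        exact le_of_mul_le_mul_right h9 hlw
      have h9 := mul_le_mul_of_nonneg_right h8 hV0
      have h10 : 0 ≤ (P.card : ℝ) * K₀ := by positivity
      have h11 : (P.card : ℝ) * K₀ * 1 ≤ (P.card : ℝ) * K₀ * (Q * V) :=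
        mul_le_mul_of_nonneg_left hVe h10
      nlinarith
    have h8 : E * Real.exp (-σ) * ∑ p ∈ P, M p ≤ D.card * V / 4 := by
      have h9 : Real.exp (-σ) ≤ Real.exp 1 * V := by
        have e : Real.exp (-σ) = Real.exp 1 * Real.exp (-σ - 1) := by
          rw [← Real.exp_add]
          congr 1
          ring
        rw [e]
        exact mul_le_mul_of_nonneg_left hVge (Real.exp_pos 1).le
      have hE0 : 0 < E := (Real.exp_pos 1).trans_le hE
      have hM0 : 0 ≤ ∑ p ∈ P, M p := Finset.sum_nonneg fun p hp =>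
        (Nat.cast_nonneg _).trans (hM p hp 0)
      have h10 : E * Real.exp (-σ) * ∑ p ∈ P, M p ≤ E * (Real.exp 1 * V) * ∑ p ∈ P, M p := by
        gcongr
      have h11 := mul_le_mul_of_nonneg_right h5b hV0
      have e : E * (Real.exp 1 * V) * ∑ p ∈ P, M p =
          (E * (∑ p ∈ P, M p) * (4 * Real.exp 1)) * V / 4 := by ring
      rw [e] at h10
      linarith
    linarith
  · -- union bound
    have h7 : ∑ p ∈ P, (p : ℝ) ≤ (x : ℝ) ^ 2 := by
      have h8 : ∑ p ∈ P, (p : ℝ) ≤ ∑ _p ∈ P, (x : ℝ) := Finset.sum_le_sum fun p hp => (hPm p hp).2.2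
      rw [Finset.sum_const, nsmul_eq_mul] at h8
      have h9 : P.card ≤ x := by
        have h10 : P ⊆ Icc 1 x := by
          intro p hp
          rw [Finset.mem_Icc]
          exact ⟨(hPm p hp).1.one_lt.le, by exact_mod_cast (hPm p hp).2.2⟩
        have := Finset.card_le_card h10
        rwa [Nat.card_Icc, Nat.add_sub_cancel] at this
      have h10 : (P.card : ℝ) ≤ x := by exact_mod_cast h9
      nlinarith
    have hE0 : 0 < E := (Real.exp_pos 1).trans_le hE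
    exact (mul_le_mul_of_nonneg_right h7 (by positivity)).trans h6

end Pool.Agent.Helper13.RS
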