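import Pool.Agent.Helper13.RS.Num

/-!
# Project RS: large `z`
-/

set_option autoImplicit false

namespace Pool.Agent.Helper13.RS

open Finset Filter Topology

theorem fivehalf {l : ℝ} (h : 16 ≤ l) : 5 / 2 * l ≤ Real.exp l / 3 := by
  have h6 := Real.quadratic_le_exp_of_nonneg (x := l) (by linarith)
  have h7 : 16 * l ≤ l * l := mul_le_mul_of_nonneg_right h (by linarith)
  have h8 : l ^ 2 = l * l := sq l
  rw [h8] at h6
  linarith

theorem eighth {l : ℝ} (h : 16 ≤ l) : l / 16 ≤ l / 8 - 1 := by linarith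

theorem sixtyfour {L l : ℝ} (hl : 0 < l) : 64 * L / l * (l / 16) = 4 * L := by
  field_simp
  ring

/-- `(20 v)^(20 v)`, `v = log x / log z` -/
noncomputable def gg (x : ℕ) (z : ℝ) : ℝ :=
  (20 * (Real.log x / Real.log z)) ^ (20 * (Real.log x / Real.log z))

open Classical in
theorem caseB (hDB : StDB) (hPA : StPA) (hSG : StSG) (hTL : StTL) :
    ∃ C₂ : ℝ, 1 ≤ C₂ ∧ ∀ A : ℝ, ∀ᶠ x : ℕ in atTop,
      ∀ (y : ℕ) (w z T : ℝ) (a : ℕ → ℤ), Hyp A x y w z T →
      gg x z ≤ Real.log x →
      C₂ * x * (Real.log x / Real.log (Real.log x) * gg x z) ≤ y →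
      (((Om (Pr w z)).filter fun r => Compl x y w z T a r).card : ℝ) ≤
        256 * Real.log x / w * ∏ s ∈ Pr w z, (s : ℝ) := by
  obtain ⟨cB, κ, K₁, hcB, hκ, hκ4, hK1, hDB⟩ := hDB
  obtain ⟨CS, hCS, hSG⟩ := hSG
  obtain ⟨CT, xT, hCT, hxT, hTL⟩ := hTL
  set e1 : ℝ := Real.exp 1 with he1
  have he0 : 0 < e1 := Real.exp_pos 1
  set C₂ : ℝ := max 1 (256 * e1 * CT * CS / cB) with hC₂
  have hC2 : 1 ≤ C₂ := le_max_left _ _
  have hC2' : 256 * e1 * CT * CS ≤ cB * C₂ := by
    have := le_max_right 1 (256 * e1 * CT * CS / cB)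
    rw [← hC₂, div_le_iff₀ hcB] at this
    linarith
  refine ⟨C₂, hC2, fun A => ?_⟩
  set A' : ℝ := max A 1 with hA'
  have hA1 : 1 ≤ A' := le_max_right _ _
  have hA0 : 0 < A' := by linarith
  have ev : ∀ᶠ l : ℝ in atTop, 16 ≤ l ∧
      A' * l ^ 2 ≤ κ * Real.exp l ∧ K₁ * l ^ 3 ≤ Real.exp l ∧
      8 * e1 * CT * A' * l ^ 2 ≤ cB * Real.exp (3 / 8 * l) ∧
      A' * l ≤ 2 * Real.exp l ∧
      e1 * CS * Real.exp (A' * l) ≤ 8 * cB * Real.exp (Real.exp l) := by
    have f1 : ∀ᶠ l : ℝ in atTop, 16 ≤ l := eventually_ge_atTop 16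
    have f4 := pow_exp_ev 2 (b := 1) (c := κ / A') one_pos (by positivity)
    have f5 := pow_exp_ev 3 (b := 1) (c := 1 / K₁) one_pos (by positivity)
    have f6 := pow_exp_ev 2 (b := 3 / 8) (c := cB / (8 * e1 * CT * A')) (by norm_num) (by positivity)
    have f8 := pow_exp_ev 1 (b := 1) (c := 2 / A') one_pos (by positivity)
    have f9 := ev_exp_exp A' (e1 * CS) (8 * cB) (by positivity) (by positivity)
    filter_upwards [f1, f4, f5, f6, f8, f9] with l g1 g4 g5 g6 g8 g9
    refine ⟨g1, ?_, ?_, ?_, ?_, g9⟩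
    · rw [one_mul] at g4
      have h := mul_le_mul_of_nonneg_left g4 hA0.le
      have e : A' * (κ / A' * Real.exp l) = κ * Real.exp l := by field_simp
      rwa [e] at h
    · rw [one_mul] at g5
      have h := mul_le_mul_of_nonneg_left g5 (by linarith : (0 : ℝ) ≤ K₁)
      have e : K₁ * (1 / K₁ * Real.exp l) = Real.exp l := by
        have : K₁ ≠ 0 := by linarith
        field_simp
      rwa [e] at h
    · have h := mul_le_mul_of_nonneg_left g6 (by positivity : (0 : ℝ) ≤ 8 * e1 * CT * A')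
      have e : 8 * e1 * CT * A' * (cB / (8 * e1 * CT * A') * Real.exp (3 / 8 * l)) =
          cB * Real.exp (3 / 8 * l) := by field_simp
      rwa [e] at h
    · rw [one_mul, pow_one] at g8
      have h := mul_le_mul_of_nonneg_left g8 hA0.le
      have e : A' * (2 / A' * Real.exp l) = 2 * Real.exp l := by field_simp
      rwa [e] at h
  have evx : ∀ᶠ x : ℕ in atTop, xT ≤ x := by
    have t1 : Tendsto (fun x : ℕ => (x : ℝ)) atTop atTop := tendsto_natCast_atTop_atTop
    exact t1.eventually_ge_atTop xT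
  filter_upwards [loglog_tendsto.eventually ev, evx] with x hxl hx2
  intro y w z T a hyp hgz hyl
  set l : ℝ := Real.log (Real.log x) with hl
  obtain ⟨g1, g4, g5, g6, g8, g9⟩ := hxl
  obtain ⟨k1, k2, k3, k4, k5, k6, k7, k8, k9, k10, k11, k12, k13⟩ := common hyp hl g1
  set L : ℝ := Real.exp l with hL
  have hl0 : 0 < l := by linarith
  have hL0 : 0 < L := Real.exp_pos l
  have hxpos : (0 : ℝ) < x := by exact_mod_cast (by omega : 0 < x)
  have hypos : (0 : ℝ) < y := hxpos.trans_le (by exact_mod_cast hyp.xy)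
  have hw0 : 0 < w := by linarith
  have hz0 : 0 < z := hw0.trans_le hyp.wz
  have hlw0 : 0 < Real.log w := by linarith
  have hlz : 3 * l ≤ Real.log z := k4.trans (Real.log_le_log hw0 hyp.wz)
  have hlz0 : 0 < Real.log z := by linarith
  have hT0 : 0 < T := by linarith [hyp.T2]
  have hlogy0 : 0 < Real.log y := hL0.trans_le k10
  have hy1 : (1 : ℝ) ≤ y := by
    have : (1 : ℝ) < x := by exact_mod_cast (by omega : 1 < x)
    have h2 : (x : ℝ) ≤ y := by exact_mod_cast hyp.xy
    linarith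
  have hxe : (x : ℝ) = Real.exp L := by
    rw [← k1, Real.exp_log hxpos]
  have hwA : w ≤ Real.exp (A' * l) := by
    rw [← Real.log_le_iff_le_exp hw0]
    exact k5
  rw [k1]
  set ε : ℝ := 256 * L / w with hε'
  have hε : 0 < ε := by positivity
  -- v
  set G : ℝ := gg x z with hG
  rw [k1] at hgz hyl
  set v : ℝ := L / Real.log z with hv
  have hv1 : 1 ≤ v := by
    rw [hv, one_le_div hlz0]
    exact k11
  have hv0 : 0 < v := by linarith
  have hGe : G = Real.exp (20 * v * Real.log (20 * v)) := by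
    rw [hG]
    unfold gg
    rw [k1, ← hv, Real.rpow_def_of_pos (by positivity), mul_comm]
  have hlog20 : 1 ≤ Real.log (20 * v) := by
    rw [Real.le_log_iff_exp_le (by positivity)]
    have h1 := Real.exp_one_lt_d9
    linarith
  have hvl : 20 * v * Real.log (20 * v) ≤ l := by
    rw [hGe, hL] at hgz
    exact Real.exp_le_exp.1 hgz
  have hvl2 : 20 * v ≤ l := by
    have h1 : 20 * v * 1 ≤ 20 * v * Real.log (20 * v) :=
      mul_le_mul_of_nonneg_left hlog20 (by positivity)
    linarith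
  -- k
  set k : ℕ := ⌈4 * v⌉₊ with hk
  have hk4 : 4 * v ≤ k := Nat.le_ceil _
  have hk5 : (k : ℝ) ≤ 5 * v := by
    have h1 := Nat.ceil_lt_add_one (show 0 ≤ 4 * v by positivity)
    rw [← hk] at h1
    linarith
  have hk3 : 3 ≤ k := by
    have h1 : (3 : ℝ) ≤ k := by linarith
    exact_mod_cast h1
  have hk0 : (0 : ℝ) < k := by linarith
  have hkl : 4 * (k : ℝ) ≤ l := by linarith
  have hkl' : (k : ℝ) ≤ l := by linarith
  -- Z
  set Z : ℝ := (y : ℝ) ^ ((k : ℝ)⁻¹) with hZ
  have hZk : Z ^ k = (y : ℝ) := Real.rpow_inv_natCast_pow hypos.le (by omega)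
  have hZ1 : 1 ≤ Z := Real.one_le_rpow hy1 (by positivity)
  have hZ0 : 0 < Z := by linarith
  have hlZ : Real.log Z = Real.log y / k := by
    rw [hZ, Real.log_rpow hypos]
    rw [mul_comm, div_eq_mul_inv]
  have hwZ : w ≤ Z ^ κ := by
    have h1 : Real.log w ≤ κ * Real.log Z := by
      refine k5.trans ?_
      rw [hlZ, mul_div_assoc', le_div_iff₀ hk0]
      have h2 : A' * l * k ≤ A' * l * l := mul_le_mul_of_nonneg_left hkl' (by positivity)
      have h3 : κ * L ≤ κ * Real.log y := mul_le_mul_of_nonneg_left k10 hκ.le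
      have h4 : A' * l * l = A' * l ^ 2 := by ring
      linarith
    calc w = Real.exp (Real.log w) := (Real.exp_log hw0).symm
      _ ≤ Real.exp (κ * Real.log Z) := Real.exp_le_exp.2 h1
      _ = Z ^ κ := by rw [Real.rpow_def_of_pos hZ0, mul_comm]
  have hKZ : K₁ * (k : ℝ) ^ 2 ≤ Real.log Z := by
    rw [hlZ, le_div_iff₀ hk0]
    have h1 : (k : ℝ) ^ 3 ≤ l ^ 3 := pow_le_pow_left₀ hk0.le hkl' 3
    have h2 : K₁ * (k : ℝ) ^ 3 ≤ K₁ * l ^ 3 := mul_le_mul_of_nonneg_left h1 (by linarith)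
    have h3 : K₁ * (k : ℝ) ^ 2 * k = K₁ * (k : ℝ) ^ 3 := by ring
    linarith
  obtain ⟨D, hD1, hD2, hD3⟩ := hDB k y w Z a hk3 hZ1 hZk (by linarith) hwZ hKZ
  -- size of D; `S = sqrt G`
  set S : ℝ := Real.exp (10 * v * Real.log (20 * v)) with hS
  have hS0 : 0 < S := Real.exp_pos _
  have hSG2 : G = S * S := by
    rw [hGe, hS, ← Real.exp_add]
    congr 1
    ring
  have hS1 : 1 ≤ S := Real.one_le_exp (by positivity)
  have hSl : S ≤ Real.exp (l / 2) := Real.exp_le_exp.2 (by linarith)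
  have hpow : 1 / S ≤ (1 / (8 * (k : ℝ) ^ 2)) ^ k := by
    have h1 : Real.exp (-(2 * Real.log (20 * v))) ≤ 1 / (8 * (k : ℝ) ^ 2) := by
      have h2 : Real.exp (-(2 * Real.log (20 * v))) = 1 / (20 * v) ^ 2 := by
        rw [Real.exp_neg, ← one_div]
        congr 1
        rw [show (2 : ℝ) * Real.log (20 * v) = ((2 : ℕ) : ℝ) * Real.log (20 * v) by norm_num,
          Real.exp_nat_mul, Real.exp_log (by positivity)]
      rw [h2]
      refine one_div_le_one_div_of_le (by positivity) ?_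
      have h3 : (k : ℝ) ^ 2 ≤ (5 * v) ^ 2 := pow_le_pow_left₀ hk0.le hk5 2
      have h4 : 0 ≤ v ^ 2 := by positivity
      have h5 : (5 * v) ^ 2 = 25 * v ^ 2 := by ring
      have h6 : (20 * v) ^ 2 = 400 * v ^ 2 := by ring
      rw [h5] at h3
      rw [h6]
      linarith
    have h5 : Real.exp (-(2 * Real.log (20 * v))) ^ k ≤ (1 / (8 * (k : ℝ) ^ 2)) ^ k :=
      pow_le_pow_left₀ (Real.exp_pos _).le h1 k
    refine le_trans ?_ h5
    rw [← Real.exp_nat_mul, hS, one_div, ← Real.exp_neg]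
    refine Real.exp_le_exp.2 ?_
    have h7 : (k : ℝ) * (2 * Real.log (20 * v)) ≤ 5 * v * (2 * Real.log (20 * v)) :=
      mul_le_mul_of_nonneg_right hk5 (by positivity)
    linarith
  have hDlw : cB * y / S ≤ D.card * Real.log w := by
    have h1 := mul_le_mul_of_nonneg_right hD3 hlw0.le
    have h2 : cB * (y / Real.log w) * (1 / (8 * (k : ℝ) ^ 2)) ^ k * Real.log w =
        cB * y * (1 / (8 * (k : ℝ) ^ 2)) ^ k := by
      field_simp
    rw [h2] at h1
    have h3 : cB * y / S = cB * y * (1 / S) := by ring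
    rw [h3]
    exact (mul_le_mul_of_nonneg_left hpow (by positivity)).trans h1
  have hDx : cB * C₂ * x * (L / l) ≤ D.card * Real.log w := by
    refine le_trans ?_ hDlw
    have h1 : C₂ * x * (L / l * G) * (cB / S) ≤ y * (cB / S) :=
      mul_le_mul_of_nonneg_right hyl (by positivity)
    have h2 : C₂ * x * (L / l * G) * (cB / S) = cB * C₂ * x * (L / l) * S := by
      rw [hSG2]
      field_simp
    have h3 : y * (cB / S) = cB * y / S := by ring
    rw [h2, h3] at h1
    refine le_trans ?_ h1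
    have h4 : cB * C₂ * x * (L / l) * 1 ≤ cB * C₂ * x * (L / l) * S :=
      mul_le_mul_of_nonneg_left hS1 (by positivity)
    linarith
  have hDc : cB * y / S / (A' * l) ≤ D.card := by
    rw [div_le_iff₀ (by positivity)]
    exact hDlw.trans (mul_le_mul_of_nonneg_left k5 (Nat.cast_nonneg _))
  obtain ⟨hT1, hT2⟩ := hTL x T hx2 hyp.T2 k7
  rw [k1] at hT1 hT2
  set M : ℕ → ℝ := fun p => 2 * (y / p) with hM
  have hPm : ∀ p ∈ Pr ((x : ℝ) / T) x, p.Prime ∧ (x : ℝ) / T < (p : ℝ) ∧ (p : ℝ) ≤ x := fun p hp =>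
    (mem_Pr (Nat.cast_nonneg x)).1 hp
  have hMD : ∀ p ∈ Pr ((x : ℝ) / T) x, ∀ r : ℕ, ((D.filter fun n => n % p = r).card : ℝ) ≤ M p := by
    intro p hp r
    obtain ⟨q1, q2, q3⟩ := hPm p hp
    have hpx : p ≤ x := by exact_mod_cast q3
    exact card_class D y p r q1.pos (hpx.trans hyp.xy) fun n hn => (hD1 n hn).2.1
  have hMle : ∑ p ∈ Pr ((x : ℝ) / T) x, M p ≤ 2 * y * (CT * √l / L) := by
    have h1 : ∑ p ∈ Pr ((x : ℝ) / T) x, M p = 2 * y * ∑ p ∈ Pr ((x : ℝ) / T) x, 1 / (p : ℝ) := by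
      rw [Finset.mul_sum]
      refine Finset.sum_congr rfl fun p _ => ?_
      rw [hM]
      dsimp only
      ring
    rw [h1]
    refine mul_le_mul_of_nonneg_left (hT1.trans ?_) (by positivity)
    have h6 : CT * Real.log T ≤ CT * √l := mul_le_mul_of_nonneg_left k6 hCT.le
    exact div_le_div_of_nonneg_right h6 hL0.le
  have hsl : √l ≤ l := by
    have := sqrt_le_quarter g1
    linarith
  have hlogE : Real.log (Real.exp (l / 8)) = l / 8 := Real.log_exp _
  refine app hPA hSG x y w z T ε (64 * L / l) (Real.exp (l / 8)) a D M hε k2 k3 hyp.wz hyp.T2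
    hyp.zT k8 ?_ (Real.exp_le_exp.2 (by linarith)) (by positivity) hD1 ?_ hMD ?_ ?_ ?_ ?_
  · exact log_w hw0 k9 g1 k12
  · intro n hn p hp hpz hpT hdvd
    have h1 := hD2 n hn p hp hdvd
    have h2 : Z ^ 3 ≤ z := by
      rw [← Real.log_le_log_iff (by positivity) hz0, Real.log_pow, hlZ]
      have h3 : Real.log y ≤ L + 5 / 2 * l := by
        have h4 := Real.log_le_log hypos k13
        rwa [Real.log_mul hxpos.ne' (Real.exp_pos _).ne', Real.log_exp, k1] at h4
      have h5 : 5 / 2 * l ≤ L / 3 := fivehalf g1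
      have h7 : L = v * Real.log z := by
        rw [hv]
        field_simp
      push_cast
      have h8 : 3 * (Real.log y / k) = 3 * Real.log y / k := by ring
      rw [h8, div_le_iff₀ hk0]
      have h9 : Real.log z * (4 * v) ≤ Real.log z * k := mul_le_mul_of_nonneg_left hk4 hlz0.le
      have h10 : Real.log z * (4 * v) = 4 * L := by
        rw [h7]
        ring
      linarith
    linarith
  · -- first moment
    have h0 : e1 * CS * w ≤ 8 * cB * x := by
      rw [hxe]
      exact (mul_le_mul_of_nonneg_left hwA (by positivity)).trans g9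
    have h1 : 16 * e1 * (CS * Real.log z) ≤ ε * (cB * C₂ * x * (L / l)) := by
      have h2 : ε * (cB * C₂ * x * (L / l)) =
          (256 * L * cB * C₂ * x * L) / (w * l) := by
        rw [hε']
        field_simp
      rw [h2, le_div_iff₀ (by positivity)]
      have h3 : l ≤ L := by
        have := Real.add_one_le_exp l
        linarith
      have h4 : Real.log z * l ≤ L * L := mul_le_mul k11 h3 hl0.le hL0.le
      have h5 : (e1 * CS * w) * (Real.log z * l) ≤ (8 * cB * x) * (L * L) :=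
        mul_le_mul h0 h4 (by positivity) (by positivity)
      have h6 : (8 * cB * x) * (L * L) * 1 ≤ (8 * cB * x) * (L * L) * C₂ :=
        mul_le_mul_of_nonneg_left hC2 (by positivity)
      have h7 : 0 ≤ cB * x * (L * L) * C₂ := by positivity
      linarith
    exact h1.trans (mul_le_mul_of_nonneg_left hDx hε.le)
  · -- capacity 1
    refine le_trans ?_ hDx
    have h1 : ((Pr ((x : ℝ) / T) x).card : ℝ) * (64 * L / l) * (4 * e1 * (CS * Real.log z)) ≤
        (CT * x / L) * (64 * L / l) * (4 * e1 * (CS * L)) := by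
      gcongr
    refine h1.trans ?_
    have h2 : (CT * x / L) * (64 * L / l) * (4 * e1 * (CS * L)) =
        256 * e1 * CT * CS * (x * (L / l)) := by
      field_simp
      ring
    have h3 : cB * C₂ * x * (L / l) = cB * C₂ * (x * (L / l)) := by ring
    rw [h2, h3]
    exact mul_le_mul_of_nonneg_right hC2' (by positivity)
  · -- capacity 2
    refine le_trans ?_ hDc
    have h1 : Real.exp (l / 8) * (∑ p ∈ Pr ((x : ℝ) / T) x, M p) * (4 * e1) ≤
        Real.exp (l / 8) * (2 * y * (CT * √l / L)) * (4 * e1) := by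
      gcongr
    refine h1.trans ?_
    rw [le_div_iff₀ (by positivity), le_div_iff₀ hS0]
    have h2 : Real.exp (l / 8) * (2 * y * (CT * √l / L)) * (4 * e1) * (A' * l) * S =
        (8 * e1 * CT * A' * (l * √l)) * (y * (Real.exp (l / 8) / L * S)) := by
      field_simp
      ring
    rw [h2]
    have h3 : 8 * e1 * CT * A' * (l * √l) ≤ cB * Real.exp (3 / 8 * l) := by
      refine le_trans ?_ g6
      have : l * √l ≤ l ^ 2 := by
        rw [sq]
        exact mul_le_mul_of_nonneg_left hsl hl0.le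
      exact mul_le_mul_of_nonneg_left this (by positivity)
    have h4 : Real.exp (l / 8) / L * S ≤ Real.exp (l / 8) / L * Real.exp (l / 2) :=
      mul_le_mul_of_nonneg_left hSl (by positivity)
    have h5 : Real.exp (l / 8) / L * Real.exp (l / 2) = Real.exp (-(3 / 8 * l)) := by
      rw [hL, ← Real.exp_sub, ← Real.exp_add]
      congr 1
      ring
    rw [h5] at h4
    have h6 : (8 * e1 * CT * A' * (l * √l)) * (y * (Real.exp (l / 8) / L * S)) ≤
        (cB * Real.exp (3 / 8 * l)) * (y * Real.exp (-(3 / 8 * l))) :=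
      mul_le_mul h3 (mul_le_mul_of_nonneg_left h4 hypos.le) (by positivity) (by positivity)
    refine h6.trans (le_of_eq ?_)
    have h7 : Real.exp (3 / 8 * l) * Real.exp (-(3 / 8 * l)) = 1 := by
      rw [← Real.exp_add, ← Real.exp_zero]
      congr 1
      ring
    calc cB * Real.exp (3 / 8 * l) * (y * Real.exp (-(3 / 8 * l))) =
          cB * y * (Real.exp (3 / 8 * l) * Real.exp (-(3 / 8 * l))) := by ring
      _ = cB * y := by rw [h7, mul_one]
  · refine h6_of hxpos k1 (Real.exp_pos _) ?_ (eps_w hw0 hwA g8 (by linarith) rfl)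
    rw [hlogE]
    have h0 : 0 ≤ 64 * L / l := by positivity
    have h1 : 64 * L / l * (l / 16) ≤ 64 * L / l * (l / 8 - 1) :=
      mul_le_mul_of_nonneg_left (eighth g1) h0
    rwa [sixtyfour hl0] at h1

end Pool.Agent.Helper13.RS
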