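import Pool.Agent.Helper13.RS.St
import Pool.Agent.Helper60.GP.All

/-!
# Project RS: modules SG and LW
-/

set_option autoImplicit false

namespace Pool.Agent.Helper13.RS

open Finset

theorem one_not_modEq_zero {p : ℕ} (hp : p.Prime) : ¬ (1 : ℤ) ≡ 0 [ZMOD (p : ℤ)] := by
  intro h
  have h1 : (p : ℤ) ∣ 1 := by
    have := Int.modEq_iff_dvd.1 h.symm
    simpa using this
  have h2 : p ∣ 1 := by exact_mod_cast h1
  exact hp.one_lt.ne' (Nat.dvd_one.1 h2)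

theorem offSum_Pr (u v : ℝ) :
    Pool.Agent.Helper13.JC.offSum (fun _ => 1) 0 u v = ∑ p ∈ Pr u v, 1 / (p : ℝ) := by
  classical
  unfold Pool.Agent.Helper13.JC.offSum Pr
  refine Finset.sum_congr ?_ fun _ _ => rfl
  ext p
  simp only [Finset.mem_filter]
  constructor
  · rintro ⟨h1, h2, h3, _⟩
    exact ⟨h1, h2, h3⟩
  · rintro ⟨h1, h2, h3⟩
    exact ⟨h1, h2, h3, one_not_modEq_zero h2⟩

theorem hSG : StSG := by
  obtain ⟨C, hC, h⟩ := Pool.Agent.Helper13.JC.offSum_mert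
  refine ⟨C, hC, fun w z hw hz => ?_⟩
  have h1 := h (fun _ => 1) 0 w z (by linarith) (by linarith)
  rw [offSum_Pr] at h1
  refine h1.trans (le_of_eq ?_)
  rw [max_eq_left]
  exact Real.log_le_log (by linarith) hz

theorem hLw : StLw := by
  classical
  obtain ⟨c₀, κ, X₀, h1, h2, h3, h4, h5⟩ := Pool.Agent.Helper13.JC.lower
    Pool.Agent.Helper60.GP.pB3 Pool.Agent.Helper60.GP.pB4 Pool.Agent.Helper60.GP.pB5
  refine ⟨c₀, κ, X₀, h1, h2, h3, h4, fun X hX Q c hQ hc => ?_⟩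
  refine ⟨_, fun q hq => ?_, h5 X hX Q c hQ hc⟩
  rw [Finset.mem_filter, Finset.mem_Ioc] at hq
  exact ⟨hq.1.1, hq.1.2, hq.2.1, hq.2.2⟩

end Pool.Agent.Helper13.RS
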