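import Pool.Agent.Helper13.RS.CaseA
import Pool.Agent.Helper13.RS.CaseB
import Pool.Agent.Helper13.RS.M_SG
import Pool.Agent.Helper92.RS.M_SM
import Pool.Agent.Helper16.RS.M_PQ
import Pool.Agent.Helper71.RS.M_LO
import Pool.Agent.Helper28.RS.M_CL
import Pool.Agent.Helper98.RS.M_PA
import Pool.Agent.Helper80.RS.M_WI
import Pool.Agent.Helper67.RS.M_DA
import Pool.Agent.Helper6.RS.M_DB
import Pool.Agent.Helper19.RS.M_TL
import Pool.Agent.Helper60.GP.All

/-!
# Project RS: assembly
-/

set_option autoImplicit false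

namespace Pool.Agent.Helper13.RS

open Finset Filter Topology

theorem pM1 : Pool.Agent.Helper60.GP.StM1 := Pool.Agent.Helper60.GP.pM1
theorem pLw : StLw := hLw
theorem pSM : StSM := Pool.Agent.Helper92.RS.hSM
theorem pPQ : StPQ := Pool.Agent.Helper16.RS.hPQ
theorem pLO : StLO := Pool.Agent.Helper71.RS.hLO pLw
theorem pCL : StCL := Pool.Agent.Helper28.RS.hCL
theorem pPA : StPA := Pool.Agent.Helper98.RS.hPA
theorem pWI : StWI := Pool.Agent.Helper80.RS.hWI pM1
theorem pDA : StDA := Pool.Agent.Helper67.RS.hDA pSM pPQ pLO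
theorem pDB : StDB := Pool.Agent.Helper6.RS.hDB pSM pPQ pLO pWI
theorem pSG : StSG := hSG
theorem pTL : StTL := Pool.Agent.Helper19.RS.hTL pM1

/-- the bound -/
noncomputable def bd (x : ℕ) (z : ℝ) : ℝ :=
  min (Real.log x * Real.log z / (Real.log (Real.log x) * Real.log (Real.log (Real.log x))))
    (Real.log x / Real.log (Real.log x) * gg x z)

theorem Compl_mono {x y y' : ℕ} {w z T : ℝ} {a : ℕ → ℤ} {r : ↥(Pr w z) → ℕ} (h : y' ≤ y)
    (hc : Compl x y w z T a r) : Compl x y' w z T a r := by
  obtain ⟨g, h1, h2, h3, h4⟩ := hc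
  exact ⟨g, fun n hn hn' => h1 n hn (hn'.trans h), h2, h3, h4⟩

open Classical in
theorem final : ∃ C : ℝ, 0 < C ∧ ∀ A : ℝ, ∃ x₀ : ℕ, ∀ x y : ℕ, ∀ (w z T : ℝ) (a : ℕ → ℤ),
    x₀ ≤ x → Real.log x ^ 3 ≤ w → w ≤ Real.log x ^ A → w ≤ z → 2 ≤ T →
    T ≤ Real.exp (√(Real.log (Real.log x))) → z * T ≤ x → C * x * bd x z ≤ y →
      (((Om (Pr w z)).filter fun r => Compl x y w z T a r).card : ℝ) ≤
        256 * Real.log x / w * ∏ s ∈ Pr w z, (s : ℝ) := by
  obtain ⟨C₁, hC₁, hA⟩ := caseA pDA pCL pPA pSG pTL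
  obtain ⟨C₂, hC₂, hB⟩ := caseB pDB pPA pSG pTL
  set C : ℝ := max C₁ C₂ with hC
  have hC1 : C₁ ≤ C := le_max_left _ _
  have hC2 : C₂ ≤ C := le_max_right _ _
  have hCge : 1 ≤ C := hC₁.trans hC1
  have hC0 : 0 < C := by linarith
  refine ⟨C, hC0, fun A => ?_⟩
  have ev : ∀ᶠ l : ℝ in atTop, 16 ≤ l ∧ 1 ≤ Real.log l ∧ C + 1 ≤ Real.exp (l / 2) := by
    have hlog : Tendsto (fun l : ℝ => Real.log l) atTop atTop := Real.tendsto_log_atTop
    have hhalf : Tendsto (fun l : ℝ => Real.exp (l / 2)) atTop atTop :=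
      Real.tendsto_exp_atTop.comp (tendsto_id.atTop_div_const (by norm_num))
    exact (eventually_ge_atTop 16).and ((hlog.eventually_ge_atTop 1).and
      (hhalf.eventually_ge_atTop _))
  obtain ⟨x₀, hx₀⟩ := eventually_atTop.1 ((hA A).and ((hB A).and (loglog_tendsto.eventually ev)))
  refine ⟨x₀, fun x y w z T a hx h3 hwA hwz hT2 hTe hzT hy => ?_⟩
  obtain ⟨eA, eB, g1, g2, g4⟩ := hx₀ x hx
  set l : ℝ := Real.log (Real.log x) with hl
  set m : ℝ := Real.log l with hm
  have hl0 : 0 < l := by linarith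
  have hm0 : 0 < m := by linarith
  have hLe : Real.log x = Real.exp l := by
    rw [hl]
    exact log_eq_exp (by rw [← hl]; linarith)
  have hL0 : 0 < Real.log x := by rw [hLe]; exact Real.exp_pos l
  have hxpos : (0 : ℝ) < x := by
    rcases Nat.eq_zero_or_pos x with h | h
    · rw [h] at hL0
      simp at hL0
    · exact_mod_cast h
  have hx1 : (1 : ℝ) ≤ x := by
    have : 1 ≤ x := by exact_mod_cast hxpos
    exact_mod_cast this
  have hw1 : Real.exp l ≤ w := by
    refine le_trans ?_ h3
    rw [hLe, ← Real.exp_nat_mul]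
    exact Real.exp_le_exp.2 (by push_cast; linarith)
  have hw0 : 0 < w := (Real.exp_pos l).trans_le hw1
  have hlw : 3 * l ≤ Real.log w := by
    rw [Real.le_log_iff_exp_le hw0]
    refine le_trans (le_of_eq ?_) h3
    rw [hLe, ← Real.exp_nat_mul]
    norm_num
  have hlz : 3 * l ≤ Real.log z := hlw.trans (Real.log_le_log hw0 hwz)
  have hlz0 : 0 < Real.log z := by linarith
  have hz0 : 0 < z := hw0.trans_le hwz
  have hzx : z ≤ x := by
    have : z * 2 ≤ z * T := mul_le_mul_of_nonneg_left hT2 hz0.le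
    linarith
  have hlzL : Real.log z ≤ Real.log x := Real.log_le_log hz0 hzx
  have hlL : l ≤ Real.log x := by
    rw [hLe]
    have := Real.add_one_le_exp l
    linarith
  have hmL : m ≤ Real.log x := by
    have h6 := Real.log_le_sub_one_of_pos hl0
    rw [← hm] at h6
    linarith
  have hG1 : 1 ≤ gg x z := by
    unfold gg
    have h5 : 1 ≤ Real.log x / Real.log z := by rwa [one_le_div hlz0]
    exact Real.one_le_rpow (by linarith) (by linarith)
  have hbd0 : 1 ≤ bd x z := by
    unfold bd
    rw [← hl, ← hm]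
    refine le_min ?_ ?_
    · rw [one_le_div (by positivity)]
      have h6 : m * l ≤ Real.log x * Real.log z :=
        mul_le_mul hmL (by linarith) hl0.le hL0.le
      linarith
    · have h5 : 1 ≤ Real.log x / l := by rwa [one_le_div hl0]
      have h6 := mul_le_mul h5 hG1 zero_le_one (by positivity)
      linarith
  have hbd1 : bd x z ≤ Real.log x * Real.log z / (l * m) := min_le_left _ _
  have hL1 : Real.log x * Real.log z / (l * m) ≤ Real.exp (2 * l) := by
    have h5 : Real.log x * Real.log z / (l * m) ≤ Real.log x * Real.log z := by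
      refine div_le_self (by positivity) ?_
      have : 1 * 1 ≤ l * m := mul_le_mul (by linarith) g2 zero_le_one hl0.le
      linarith
    have h6 : Real.log x * Real.log z ≤ Real.log x * Real.log x :=
      mul_le_mul_of_nonneg_left hlzL hL0.le
    have h7 : Real.log x * Real.log x = Real.exp (2 * l) := by
      rw [hLe, ← Real.exp_add]
      congr 1
      ring
    linarith
  -- y₀
  set y₀ : ℕ := ⌈C * x * bd x z⌉₊ with hy₀
  have hy₀y : y₀ ≤ y := Nat.ceil_le.2 hy
  have hy₀1 : C * x * bd x z ≤ y₀ := Nat.le_ceil _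
  have hpos : 0 ≤ C * x * bd x z := by positivity
  have hy₀2 : (y₀ : ℝ) ≤ C * x * bd x z + 1 := (Nat.ceil_lt_add_one hpos).le
  have hbdL : bd x z ≤ Real.exp (2 * l) := hbd1.trans hL1
  have hyp : Hyp A x y₀ w z T := by
    refine ⟨h3, hwA, hwz, hT2, hTe, hzT, ?_, ?_⟩
    · have h5 : (x : ℝ) ≤ y₀ := by
        refine le_trans ?_ hy₀1
        have h6 : 1 * (x : ℝ) * 1 ≤ C * x * bd x z :=
          mul_le_mul (mul_le_mul_of_nonneg_right hCge hxpos.le) hbd0 zero_le_one
            (by positivity)
        linarith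
      exact_mod_cast h5
    · rw [← hl]
      refine hy₀2.trans ?_
      have h5 : C * x * bd x z ≤ C * x * Real.exp (2 * l) :=
        mul_le_mul_of_nonneg_left hbdL (by positivity)
      have h6 : (1 : ℝ) ≤ x * Real.exp (2 * l) := by
        have h7 := Real.one_le_exp (show 0 ≤ 2 * l by linarith)
        have h8 := mul_le_mul hx1 h7 zero_le_one hxpos.le
        linarith
      have h8 : Real.exp (5 / 2 * l) = Real.exp (l / 2) * Real.exp (2 * l) := by
        rw [← Real.exp_add]
        congr 1
        ring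
      rw [h8]
      have h9 : (C + 1) * (x * Real.exp (2 * l)) ≤ Real.exp (l / 2) * (x * Real.exp (2 * l)) :=
        mul_le_mul_of_nonneg_right g4 (by positivity)
      linarith
  have hsub : (((Om (Pr w z)).filter fun r => Compl x y w z T a r).card : ℝ) ≤
      (((Om (Pr w z)).filter fun r => Compl x y₀ w z T a r).card : ℝ) := by
    have : (Om (Pr w z)).filter (fun r => Compl x y w z T a r) ⊆
        (Om (Pr w z)).filter fun r => Compl x y₀ w z T a r := by
      intro r hr
      rw [Finset.mem_filter] at hr ⊢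
      exact ⟨hr.1, Compl_mono hy₀y hr.2⟩
    exact_mod_cast Finset.card_le_card this
  refine hsub.trans ?_
  by_cases hcase : Real.log x * Real.log z / (l * m) ≤ Real.log x / l * gg x z
  · -- the first term is the minimum
    refine eA y₀ w z T a hyp ?_
    have h5 : bd x z = Real.log x * Real.log z / (l * m) := min_eq_left hcase
    rw [h5] at hy₀1
    refine le_trans ?_ hy₀1
    exact mul_le_mul_of_nonneg_right (mul_le_mul_of_nonneg_right hC1 hxpos.le) (by positivity)
  · -- the second term is the minimum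
    push Not at hcase
    have h5 : bd x z = Real.log x / l * gg x z := min_eq_right hcase.le
    rw [h5] at hy₀1
    refine eB y₀ w z T a hyp ?_ ?_
    · have h6 : Real.log x / l * gg x z < Real.log x / l * (Real.log z / m) := by
        refine hcase.trans_le (le_of_eq ?_)
        field_simp
      have h7 : gg x z < Real.log z / m := lt_of_mul_lt_mul_left h6 (by positivity)
      have h8 : Real.log z / m ≤ Real.log z := div_le_self hlz0.le g2
      linarith
    · refine le_trans ?_ hy₀1
      have h6 : 0 ≤ Real.log x / l * gg x z := by positivity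
      exact mul_le_mul_of_nonneg_right (mul_le_mul_of_nonneg_right hC2 hxpos.le) h6

end Pool.Agent.Helper13.RS
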