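import Pool.Agent.Helper13.RS.Num

/-!
# Project RS: small `z`
-/

set_option autoImplicit false

namespace Pool.Agent.Helper13.RS

open Finset Filter Topology

open Classical in
theorem caseA (hDA : StDA) (hCL : StCL) (hPA : StPA) (hSG : StSG) (hTL : StTL)
    : ∃ C₁ : ℝ, 1 ≤ C₁ ∧ ∀ A : ℝ, ∀ᶠ x : ℕ in atTop,
      ∀ (y : ℕ) (w z T : ℝ) (a : ℕ → ℤ), Hyp A x y w z T →
      C₁ * x * (Real.log x * Real.log z / (Real.log (Real.log x) * Real.log (Real.log (Real.log x)))) ≤ y →
      (((Om (Pr w z)).filter fun r => Compl x y w z T a r).card : ℝ) ≤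
        256 * Real.log x / w * ∏ s ∈ Pr w z, (s : ℝ) := by
  obtain ⟨cD, κ, xD, hcD, hκ, hκ4, hxD, hDA⟩ := hDA
  obtain ⟨CC, hCC, hCL⟩ := hCL
  obtain ⟨CS, hCS, hSG⟩ := hSG
  obtain ⟨CT, xT, hCT, hxT, hTL⟩ := hTL
  set e1 : ℝ := Real.exp 1 with he1
  have he0 : 0 < e1 := Real.exp_pos 1
  set C₁ : ℝ := max 1 (128 * e1 * CT * CS / cD) with hC₁
  have hC1 : 1 ≤ C₁ := le_max_left _ _
  have hC1' : 128 * e1 * CT * CS ≤ cD * C₁ := by
    have := le_max_right 1 (128 * e1 * CT * CS / cD)
    rw [← hC₁, div_le_iff₀ hcD] at this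
    linarith
  refine ⟨C₁, hC1, fun A => ?_⟩
  set A' : ℝ := max A 1 with hA'
  have hA1 : 1 ≤ A' := le_max_right _ _
  have hA0 : 0 < A' := by linarith
  set cE : ℝ := cD / (16 * e1 * A' * CC * CT) with hcE
  have hcE0 : 0 < cE := by positivity
  -- facts about l
  have ev : ∀ᶠ l : ℝ in atTop, 16 ≤ l ∧ 1 ≤ Real.log l ∧ Real.log l ≤ Real.exp (l / 2) ∧
      64 ≤ Real.exp (l / 2) ∧ A' * l ≤ κ * Real.exp l ∧
      e1 ≤ cE * √l ∧
      Real.log l / 4 ≤ Real.log (cE * √l) - 1 ∧ A' * l ≤ 2 * Real.exp l ∧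
      e1 * CS * Real.exp (A' * l) ≤ 8 * cD * Real.exp (Real.exp l) := by
    have hexp : Tendsto (fun l : ℝ => Real.exp l) atTop atTop := Real.tendsto_exp_atTop
    have hhalf : Tendsto (fun l : ℝ => Real.exp (l / 2)) atTop atTop :=
      Real.tendsto_exp_atTop.comp (tendsto_id.atTop_div_const (by norm_num))
    have hsqrt : Tendsto (fun l : ℝ => √l) atTop atTop := Real.tendsto_sqrt_atTop
    have hlog : Tendsto (fun l : ℝ => Real.log l) atTop atTop := Real.tendsto_log_atTop
    have f1 : ∀ᶠ l : ℝ in atTop, 16 ≤ l := eventually_ge_atTop 16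
    have f2 : ∀ᶠ l : ℝ in atTop, 1 ≤ Real.log l := hlog.eventually_ge_atTop 1
    have f4 : ∀ᶠ l : ℝ in atTop, 64 ≤ Real.exp (l / 2) := hhalf.eventually_ge_atTop 64
    have f5 : ∀ᶠ l : ℝ in atTop, A' / κ ≤ Real.exp (l / 2) := hhalf.eventually_ge_atTop _
    have f6 := pow_exp_ev 1 (b := 1) (c := 2 / A') one_pos (by positivity)
    have f7 : ∀ᶠ l : ℝ in atTop, e1 / cE ≤ √l := hsqrt.eventually_ge_atTop _
    have f8 : ∀ᶠ l : ℝ in atTop, 4 * (1 - Real.log cE) ≤ Real.log l := hlog.eventually_ge_atTop _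
    have f9 := ev_exp_exp A' (e1 * CS) (8 * cD) (by positivity) (by positivity)
    filter_upwards [f1, f2, f4, f5, f6, f7, f8, f9] with l g1 g2 g4 g5 g6 g7 g8 g9
    have hl0 : 0 < l := by linarith
    refine ⟨g1, g2, ?_, g4, ?_, ?_, ?_, ?_, g9⟩
    · have h1 := Real.log_le_sub_one_of_pos (by positivity : (0 : ℝ) < l / 2)
      have h2 := Real.add_one_le_exp (l / 2)
      have h3 : Real.log l = Real.log (l / 2) + Real.log 2 := by
        rw [← Real.log_mul (by positivity) (by norm_num)]
        congr 1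
        ring
      have h4 := Real.log_two_lt_d9
      linarith
    · have h2 := Real.add_one_le_exp (l / 2)
      have h3 := Real.quadratic_le_exp_of_nonneg (x := l / 2) (by linarith)
      have h4 : A' ≤ κ * Real.exp (l / 2) := by
        rw [div_le_iff₀ hκ] at g5
        linarith
      have h5 : l ≤ Real.exp (l / 2) := by nlinarith
      have h6 : Real.exp l = Real.exp (l / 2) * Real.exp (l / 2) := by
        rw [← Real.exp_add]
        congr 1
        ring
      rw [h6]
      calc A' * l ≤ (κ * Real.exp (l / 2)) * Real.exp (l / 2) :=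
            mul_le_mul h4 h5 hl0.le (by positivity)
        _ = κ * (Real.exp (l / 2) * Real.exp (l / 2)) := by ring
    · rw [div_le_iff₀ hcE0] at g7
      linarith
    · rw [Real.log_mul hcE0.ne' (by positivity), Real.log_sqrt hl0.le]
      linarith
    · rw [one_mul, pow_one] at g6
      have h := mul_le_mul_of_nonneg_left g6 hA0.le
      have e : A' * (2 / A' * Real.exp l) = 2 * Real.exp l := by field_simp
      rwa [e] at h
  have evx : ∀ᶠ x : ℕ in atTop, xD ≤ x ∧ xT ≤ x := by
    have t1 : Tendsto (fun x : ℕ => (x : ℝ)) atTop atTop := tendsto_natCast_atTop_atTop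
    exact (t1.eventually_ge_atTop xD).and (t1.eventually_ge_atTop xT)
  filter_upwards [loglog_tendsto.eventually ev, evx] with x hxl hxx
  intro y w z T a hyp hy
  obtain ⟨hx1, hx2⟩ := hxx
  set l : ℝ := Real.log (Real.log x) with hl
  obtain ⟨g1, g2, g3, g4, g5, g7, g8, g9, g10⟩ := hxl
  obtain ⟨k1, k2, k3, k4, k5, k6, k7, k8, k9, k10, k11, k12, k13⟩ := common hyp hl g1
  set m : ℝ := Real.log l with hm
  set L : ℝ := Real.exp l with hL
  rw [k1] at hy ⊢
  have hl0 : 0 < l := by linarith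
  have hm0 : 0 < m := by linarith
  have hL0 : 0 < L := Real.exp_pos l
  have hxpos : (0 : ℝ) < x := by exact_mod_cast (by omega : 0 < x)
  have hypos : (0 : ℝ) < y := hxpos.trans_le (by exact_mod_cast hyp.xy)
  have hw0 : 0 < w := by linarith
  have hz0 : 0 < z := hw0.trans_le hyp.wz
  have hlw0 : 0 < Real.log w := by linarith
  have hlz : 3 * l ≤ Real.log z := k4.trans (Real.log_le_log hw0 hyp.wz)
  have hlz0 : 0 < Real.log z := by linarith
  have hT0 : 0 < T := by linarith [hyp.T2]
  have hxe : (x : ℝ) = Real.exp L := by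
    rw [← k1, Real.exp_log hxpos]
  have hwA : w ≤ Real.exp (A' * l) := by
    rw [← Real.log_le_iff_le_exp hw0]
    exact k5
  set ε : ℝ := 256 * L / w with hε'
  have hε : 0 < ε := by positivity
  -- H = y / x
  have hH1 : C₁ * (L * Real.log z / (l * m)) ≤ y / x := by
    rw [le_div_iff₀ hxpos]
    linarith
  have hHhalf : Real.exp (l / 2) ≤ y / x := by
    refine le_trans ?_ hH1
    have h1 : L * 3 / m ≤ L * Real.log z / (l * m) := by
      rw [div_le_div_iff₀ hm0 (by positivity)]
      have : 3 * l * (L * m) ≤ Real.log z * (L * m) :=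
        mul_le_mul_of_nonneg_right hlz (by positivity)
      linarith
    have h2 : Real.exp (l / 2) ≤ L * 3 / m := by
      rw [le_div_iff₀ hm0]
      have h3 : L = Real.exp (l / 2) * Real.exp (l / 2) := by
        rw [hL, ← Real.exp_add]
        congr 1
        ring
      rw [h3]
      have h4 : Real.exp (l / 2) * m ≤ Real.exp (l / 2) * Real.exp (l / 2) :=
        mul_le_mul_of_nonneg_left g3 (Real.exp_pos _).le
      have h5 : 0 < Real.exp (l / 2) * Real.exp (l / 2) := by positivity
      linarith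
    have h6 : 0 ≤ L * Real.log z / (l * m) := by positivity
    calc Real.exp (l / 2) ≤ 1 * (L * Real.log z / (l * m)) := by linarith
      _ ≤ C₁ * (L * Real.log z / (l * m)) := mul_le_mul_of_nonneg_right hC1 h6
  have hH64 : 64 ≤ (y : ℝ) / x := g4.trans hHhalf
  have hHpos : 0 < (y : ℝ) / x := by positivity
  have hlogH : l / 2 ≤ Real.log (y / x) := by
    rw [Real.le_log_iff_exp_le hHpos]
    exact hHhalf
  have h64 : 64 * x ≤ y := by
    rw [le_div_iff₀ hxpos] at hH64
    exact_mod_cast hH64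
  have hyw : (y : ℝ) ≤ x * w := by
    have h1 : (y : ℝ) * 1 ≤ y * T := mul_le_mul_of_nonneg_left (by linarith [hyp.T2]) hypos.le
    linarith
  have hwκ : w ≤ (x : ℝ) ^ κ := by
    have h1 : Real.log w ≤ κ * L := k5.trans g5
    rw [← k1] at h1
    calc w = Real.exp (Real.log w) := (Real.exp_log hw0).symm
      _ ≤ Real.exp (κ * Real.log x) := Real.exp_le_exp.2 h1
      _ = (x : ℝ) ^ κ := by rw [Real.rpow_def_of_pos hxpos, mul_comm]
  obtain ⟨D, hD1, hD2, hD3⟩ := hDA x y w a hx1 (by linarith) hwκ h64 hyw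
  rw [k1] at hD3
  have hlogyx : 0 < Real.log ((y : ℝ) / x) := by linarith
  -- lower bound for D
  have hDlw : cD * (y / L) * Real.log (y / x) ≤ D.card * Real.log w := by
    have h1 := mul_le_mul_of_nonneg_right hD3 hlw0.le
    have h2 : cD * (y / L) * (Real.log (y / x) / Real.log w) * Real.log w =
        cD * (y / L) * Real.log (y / x) := by
      field_simp
    rwa [h2] at h1
  have hDlw2 : cD * (y / L) * (l / 2) ≤ D.card * Real.log w := by
    refine le_trans ?_ hDlw
    exact mul_le_mul_of_nonneg_left hlogH (by positivity)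
  have hDx : cD * C₁ * x * Real.log z / (2 * m) ≤ D.card * Real.log w := by
    refine le_trans ?_ hDlw2
    have h1 : C₁ * x * (L * Real.log z / (l * m)) * (cD * (1 / L) * (l / 2)) ≤
        y * (cD * (1 / L) * (l / 2)) := mul_le_mul_of_nonneg_right hy (by positivity)
    have h2 : C₁ * x * (L * Real.log z / (l * m)) * (cD * (1 / L) * (l / 2)) =
        cD * C₁ * x * Real.log z / (2 * m) := by
      field_simp
    have h3 : y * (cD * (1 / L) * (l / 2)) = cD * (y / L) * (l / 2) := by
      ring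
    rw [h2, h3] at h1
    exact h1
  have hDc : cD * y / (2 * A' * L) ≤ D.card := by
    have h1 : cD * (y / L) * (l / 2) ≤ D.card * (A' * l) :=
      hDlw2.trans (mul_le_mul_of_nonneg_left k5 (Nat.cast_nonneg _))
    have h2 : cD * y / (2 * A' * L) * (A' * l) = cD * (y / L) * (l / 2) := by
      field_simp
    rw [← h2] at h1
    exact le_of_mul_le_mul_right h1 (by positivity)
  obtain ⟨hT1, hT2⟩ := hTL x T hx2 hyp.T2 k7
  rw [k1] at hT1 hT2
  -- the functions M
  set M : ℕ → ℝ := fun p => CC * (y / p) / Real.log (y / p) with hM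
  have hPm : ∀ p ∈ Pr ((x : ℝ) / T) x, p.Prime ∧ (x : ℝ) / T < (p : ℝ) ∧ (p : ℝ) ≤ x := fun p hp =>
    (mem_Pr (Nat.cast_nonneg x)).1 hp
  have hzx : z ≤ x / T := by
    rw [le_div_iff₀ hT0]
    exact hyp.zT
  have hMD : ∀ p ∈ Pr ((x : ℝ) / T) x, ∀ r : ℕ, ((D.filter fun n => n % p = r).card : ℝ) ≤ M p := by
    intro p hp r
    obtain ⟨q1, q2, q3⟩ := hPm p hp
    have hp0 : (0 : ℝ) < p := by exact_mod_cast q1.pos
    refine hCL w a y p r q1 (lt_of_le_of_lt (hyp.wz.trans hzx) q2) ?_ ?_ _ ?_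
    · have : (2 * p : ℝ) ≤ y := by
        have h1 : (64 : ℝ) * x ≤ y := by exact_mod_cast h64
        linarith
      exact_mod_cast this
    · rw [div_le_iff₀ hp0]
      have h1 : (x : ℝ) ≤ p * T := by
        rw [div_lt_iff₀ hT0] at q2
        exact q2.le
      have h2 : (y : ℝ) * T < p * T * w :=
        k8.trans_le (mul_le_mul_of_nonneg_right h1 hw0.le)
      have h3 : (y : ℝ) * T < (w * p) * T := by linarith
      exact (lt_of_mul_lt_mul_right h3 hT0.le).le
    · intro n hn
      rw [Finset.mem_filter] at hn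
      exact ⟨(hD1 n hn.1).2.1, hn.2, (hD1 n hn.1).2.2⟩
  have hMle : ∑ p ∈ Pr ((x : ℝ) / T) x, M p ≤ CC * y * (2 / l) * (CT * √l / L) := by
    have h1 : ∀ p ∈ Pr ((x : ℝ) / T) x, M p ≤ CC * y * (2 / l) * (1 / (p : ℝ)) := by
      intro p hp
      obtain ⟨q1, q2, q3⟩ := hPm p hp
      have hp0 : (0 : ℝ) < p := by exact_mod_cast q1.pos
      have h2 : l / 2 ≤ Real.log (y / p) := by
        refine hlogH.trans (Real.log_le_log hHpos ?_)
        exact div_le_div_of_nonneg_left hypos.le hp0 q3
      rw [hM]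
      dsimp only
      rw [div_le_iff₀ (by linarith)]
      have h3 : CC * y * (2 / l) * (1 / (p : ℝ)) * (l / 2) ≤
          CC * y * (2 / l) * (1 / (p : ℝ)) * Real.log (y / p) :=
        mul_le_mul_of_nonneg_left h2 (by positivity)
      have h4 : CC * y * (2 / l) * (1 / (p : ℝ)) * (l / 2) = CC * (y / p) := by
        field_simp
      rw [h4] at h3
      exact h3
    have h5 := Finset.sum_le_sum h1
    rw [← Finset.mul_sum] at h5
    refine h5.trans (mul_le_mul_of_nonneg_left (hT1.trans ?_) (by positivity))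
    have h6 : CT * Real.log T ≤ CT * √l := mul_le_mul_of_nonneg_left k6 hCT.le
    exact div_le_div_of_nonneg_right h6 hL0.le
  have hsl : √l * √l = l := Real.mul_self_sqrt hl0.le
  have hsl0 : 0 < √l := Real.sqrt_pos.2 hl0
  refine app hPA hSG x y w z T ε (16 * L / m) (cE * √l) a D M hε k2 k3 hyp.wz hyp.T2 hyp.zT k8 ?_ g7
    (by positivity) hD1 ?_ hMD ?_ ?_ ?_ ?_
  · -- 4 log y / w
    exact log_w hw0 k9 g1 k12
  · -- no prime factor in (z, x/T]
    intro n hn p hp hpz hpT hdvd
    have h1 := hD2 n hn p hp (lt_of_le_of_lt hyp.wz hpz) hdvd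
    have h2 : (x : ℝ) < p := by exact_mod_cast h1
    have h3 : (x : ℝ) / T ≤ x := div_le_self hxpos.le (by linarith [hyp.T2])
    linarith
  · -- first moment
    have hmL : m ≤ L := g3.trans (Real.exp_le_exp.2 (by linarith))
    have h0 : e1 * CS * w ≤ 8 * cD * x := by
      rw [hxe]
      exact (mul_le_mul_of_nonneg_left hwA (by positivity)).trans g10
    have h1 : 16 * e1 * (CS * Real.log z) ≤ ε * (cD * C₁ * x * Real.log z / (2 * m)) := by
      have h2 : ε * (cD * C₁ * x * Real.log z / (2 * m)) =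
          (256 * L * cD * x * C₁ * Real.log z) / (w * (2 * m)) := by
        rw [hε']
        field_simp
      rw [h2, le_div_iff₀ (by positivity)]
      have h3 : (e1 * CS * w) * (32 * m) ≤ (8 * cD * x) * (32 * L) :=
        mul_le_mul h0 (by linarith) (by positivity) (by positivity)
      have h4 : (e1 * CS * w) * (32 * m) * (1 * Real.log z) ≤
          (8 * cD * x) * (32 * L) * (C₁ * Real.log z) :=
        mul_le_mul h3 (mul_le_mul_of_nonneg_right hC1 hlz0.le) (by positivity) (by positivity)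
      linarith
    exact h1.trans (mul_le_mul_of_nonneg_left hDx hε.le)
  · -- capacity 1
    refine le_trans ?_ hDx
    have h1 : ((Pr ((x : ℝ) / T) x).card : ℝ) * (16 * L / m) * (4 * e1 * (CS * Real.log z)) ≤
        (CT * x / L) * (16 * L / m) * (4 * e1 * (CS * Real.log z)) := by
      gcongr
    refine h1.trans ?_
    have h2 : (CT * x / L) * (16 * L / m) * (4 * e1 * (CS * Real.log z)) =
        128 * e1 * CT * CS * (x * Real.log z / (2 * m)) := by
      field_simp
      ring
    have h3 : cD * C₁ * x * Real.log z / (2 * m) = cD * C₁ * (x * Real.log z / (2 * m)) := by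
      ring
    rw [h2, h3]
    exact mul_le_mul_of_nonneg_right hC1' (by positivity)
  · -- capacity 2
    refine le_trans ?_ hDc
    have h1 : cE * √l * (∑ p ∈ Pr ((x : ℝ) / T) x, M p) * (4 * e1) ≤
        cE * √l * (CC * y * (2 / l) * (CT * √l / L)) * (4 * e1) := by
      gcongr
    refine h1.trans (le_of_eq ?_)
    rw [hcE]
    have h2 : cD / (16 * e1 * A' * CC * CT) * √l * (CC * y * (2 / l) * (CT * √l / L)) * (4 * e1) =
        cD * y * (√l * √l) / (2 * A' * L * l) := by
      field_simp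
      ring
    rw [h2, hsl]
    field_simp
  · -- union bound
    refine h6_of hxpos k1 (by positivity) ?_ (eps_w hw0 hwA g9 (by linarith) rfl)
    have h1 : 16 * L / m * (m / 4) ≤ 16 * L / m * (Real.log (cE * √l) - 1) :=
      mul_le_mul_of_nonneg_left g8 (by positivity)
    have h2 : 16 * L / m * (m / 4) = 4 * L := by
      field_simp
      ring
    linarith

end Pool.Agent.Helper13.RS
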