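import Pool.Agent.Helper13.RS.App

/-!
# Project RS: elementary estimates
-/

set_option autoImplicit false

namespace Pool.Agent.Helper13.RS

open Finset Filter Topology

/-- the common hypotheses -/
structure Hyp (A : ℝ) (x y : ℕ) (w z T : ℝ) : Prop where
  w3 : Real.log x ^ 3 ≤ w
  wA : w ≤ Real.log x ^ A
  wz : w ≤ z
  T2 : 2 ≤ T
  Te : T ≤ Real.exp (√(Real.log (Real.log x)))
  zT : z * T ≤ x
  xy : x ≤ y
  yu : (y : ℝ) ≤ x * Real.exp (5 / 2 * Real.log (Real.log x))

theorem loglog_tendsto : Tendsto (fun x : ℕ => Real.log (Real.log x)) atTop atTop :=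
  Real.tendsto_log_atTop.comp (Real.tendsto_log_atTop.comp tendsto_natCast_atTop_atTop)

theorem log_eq_exp {x : ℕ} (h : 0 < Real.log (Real.log x)) :
    Real.log x = Real.exp (Real.log (Real.log x)) := by
  have h1 : 0 < Real.log x := by
    by_contra hc
    push Not at hc
    have h0 : 0 ≤ Real.log (x : ℝ) := Real.log_natCast_nonneg x
    have : Real.log (x : ℝ) = 0 := le_antisymm hc h0
    rw [this, Real.log_zero] at h
    exact lt_irrefl _ h
  rw [Real.exp_log h1]

theorem sqrt_le_quarter {l : ℝ} (h : 16 ≤ l) : √l ≤ l / 4 := by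
  have h1 : 4 ≤ √l := by
    rw [show (4 : ℝ) = √16 by
      rw [show (16 : ℝ) = 4 ^ 2 by norm_num, Real.sqrt_sq (by norm_num)]]
    exact Real.sqrt_le_sqrt h
  have h2 : √l * √l = l := Real.mul_self_sqrt (by linarith)
  nlinarith

theorem common {A : ℝ} {x y : ℕ} {w z T l : ℝ} (h : Hyp A x y w z T)
    (hl : l = Real.log (Real.log x)) (hl16 : 16 ≤ l) :
    Real.log x = Real.exp l ∧ 2 ≤ x ∧ 4 ≤ w ∧ 3 * l ≤ Real.log w ∧ Real.log w ≤ max A 1 * l ∧
    Real.log T ≤ √l ∧ T * T ≤ x ∧ (y : ℝ) * T < x * w ∧ Real.log y ≤ 2 * Real.exp l ∧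
    Real.exp l ≤ Real.log y ∧ Real.log z ≤ Real.exp l ∧ Real.exp (3 * l) ≤ w ∧
    (y : ℝ) ≤ x * Real.exp (5 / 2 * l) := by
  obtain ⟨h1, h2, h3, h4, h5, h6, h7, h8⟩ := h
  have hL : Real.log x = Real.exp l := by
    rw [hl]
    exact log_eq_exp (by rw [← hl]; linarith)
  have hx2 : 2 ≤ x := by
    by_contra hc
    have : x = 0 ∨ x = 1 := by omega
    have hpos := Real.exp_pos l
    rw [← hL] at hpos
    rcases this with h | h <;> · rw [h] at hpos; simp at hpos
  have hxpos : (0 : ℝ) < x := by exact_mod_cast (by omega : 0 < x)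
  have hx1 : (1 : ℝ) < x := by exact_mod_cast (by omega : 1 < x)
  have hw3 : Real.exp (3 * l) ≤ w := by
    have : Real.exp (3 * l) = Real.log x ^ 3 := by
      rw [hL, ← Real.exp_nat_mul]
      norm_num
    rw [this]
    exact h1
  have hw4 : 4 ≤ w := by
    have := Real.add_one_le_exp (3 * l)
    linarith
  have hw0 : 0 < w := by linarith
  have hlw3 : 3 * l ≤ Real.log w := by
    rw [Real.le_log_iff_exp_le hw0]
    exact hw3
  have hlwA : Real.log w ≤ max A 1 * l := by
    have e : Real.log x ^ A = Real.exp (l * A) := by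
      rw [hL, ← Real.exp_mul]
    rw [e] at h2
    have h9 := Real.log_le_log hw0 h2
    rw [Real.log_exp] at h9
    refine h9.trans ?_
    rw [mul_comm]
    exact mul_le_mul_of_nonneg_right (le_max_left _ _) (by linarith)
  rw [← hl] at h5
  have hT0 : 0 < T := by linarith
  have hlT : Real.log T ≤ √l := by
    have := Real.log_le_log hT0 h5
    rwa [Real.log_exp] at this
  have hsq := sqrt_le_quarter hl16
  have hTq : T ≤ Real.exp (l / 4) := h5.trans (Real.exp_le_exp.2 hsq)
  have hLx : Real.exp l ≤ x := by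
    rw [← hL]
    have := Real.log_le_sub_one_of_pos hxpos
    linarith
  have hTT : T * T ≤ x := by
    have h9 : T * T ≤ Real.exp (l / 4) * Real.exp (l / 4) :=
      mul_le_mul hTq hTq hT0.le (Real.exp_pos _).le
    rw [← Real.exp_add] at h9
    have h10 : Real.exp (l / 4 + l / 4) ≤ Real.exp l := Real.exp_le_exp.2 (by linarith)
    linarith
  rw [← hl] at h8
  have hyT : (y : ℝ) * T < x * w := by
    have h9 : (y : ℝ) * T ≤ x * Real.exp (5 / 2 * l) * Real.exp (l / 4) :=
      mul_le_mul h8 hTq hT0.le (by positivity)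
    rw [mul_assoc, ← Real.exp_add] at h9
    have h10 : Real.exp (5 / 2 * l + l / 4) < Real.exp (3 * l) := Real.exp_lt_exp.2 (by linarith)
    have h11 : (x : ℝ) * Real.exp (5 / 2 * l + l / 4) < x * w :=
      mul_lt_mul_of_pos_left (h10.trans_le hw3) hxpos
    linarith
  have hy0 : (0 : ℝ) < y := hxpos.trans_le (by exact_mod_cast h7)
  have hly : Real.log y ≤ 2 * Real.exp l := by
    have h9 := Real.log_le_log hy0 h8
    rw [Real.log_mul hxpos.ne' (Real.exp_pos _).ne', Real.log_exp, hL] at h9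
    have h10 := Real.quadratic_le_exp_of_nonneg (x := l) (by linarith)
    nlinarith
  have hly2 : Real.exp l ≤ Real.log y := by
    rw [← hL]
    exact Real.log_le_log hxpos (by exact_mod_cast h7)
  have hlz : Real.log z ≤ Real.exp l := by
    rw [← hL]
    have hz0 : 0 < z := by linarith
    refine Real.log_le_log hz0 ?_
    nlinarith
  exact ⟨hL, hx2, hw4, hlw3, hlwA, hlT, hTT, hyT, hly, hly2, hlz, hw3, h8⟩

theorem h6_of {x : ℕ} {L E K₀ ε : ℝ} (hx : 0 < (x : ℝ)) (hL : Real.log x = L) (hE : 0 < E)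
    (hK : 4 * L ≤ K₀ * (Real.log E - 1)) (hε : Real.exp (-2 * L) ≤ ε / 2) :
    (x : ℝ) ^ 2 * (Real.exp 1 / E) ^ K₀ ≤ ε / 2 := by
  refine le_trans ?_ hε
  have h1 : (x : ℝ) ^ 2 = Real.exp (2 * L) := by
    rw [← hL, show (2 : ℝ) * Real.log x = ((2 : ℕ) : ℝ) * Real.log x by norm_num,
      Real.exp_nat_mul, Real.exp_log hx]
  have h2 : (Real.exp 1 / E) ^ K₀ = Real.exp (-(K₀ * (Real.log E - 1))) := by
    rw [Real.rpow_def_of_pos (by positivity), Real.log_div (Real.exp_pos 1).ne' hE.ne',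
      Real.log_exp]
    congr 1
    ring
  rw [h1, h2, ← Real.exp_add]
  exact Real.exp_le_exp.2 (by linarith)

/-- trivial bound for one class -/
theorem card_class (D : Finset ℕ) (y p r : ℕ) (hp : 0 < p) (hpy : p ≤ y)
    (hD : ∀ n ∈ D, n ≤ y) : ((D.filter fun n => n % p = r).card : ℝ) ≤ 2 * (y / p) := by
  have h1 : (D.filter fun n => n % p = r).card ≤ (range (y / p + 1)).card := by
    refine Finset.card_le_card_of_injOn (fun n => n / p) ?_ ?_
    · intro n hn
      rw [Finset.mem_coe, Finset.mem_filter] at hn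
      rw [Finset.mem_coe, Finset.mem_range]
      have := Nat.div_le_div_right (c := p) (hD n hn.1)
      change n / p < y / p + 1
      omega
    · intro n hn n' hn' heq
      rw [Finset.mem_coe, Finset.mem_filter] at hn hn'
      have h3 := Nat.div_add_mod n p
      have h4 := Nat.div_add_mod n' p
      dsimp only at heq
      rw [← h3, ← h4, heq, hn.2, hn'.2]
  rw [Finset.card_range] at h1
  have h2 : ((y / p : ℕ) : ℝ) ≤ (y : ℝ) / p := Nat.cast_div_le
  have h3 : ((D.filter fun n => n % p = r).card : ℝ) ≤ ((y / p : ℕ) : ℝ) + 1 := by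
    exact_mod_cast h1
  have hp0 : (0 : ℝ) < p := by exact_mod_cast hp
  have h4 : (1 : ℝ) ≤ y / p := by
    rw [one_le_div hp0]
    exact_mod_cast hpy
  linarith

theorem pow_exp_ev (n : ℕ) {b c : ℝ} (hb : 0 < b) (hc : 0 < c) :
    ∀ᶠ l : ℝ in atTop, l ^ n ≤ c * Real.exp (b * l) := by
  have h := (isLittleO_pow_exp_pos_mul_atTop n hb).bound hc
  filter_upwards [h, eventually_ge_atTop 0] with l h1 h2
  rw [Real.norm_eq_abs, Real.norm_eq_abs, abs_of_nonneg (by positivity), abs_of_pos (Real.exp_pos _)]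
    at h1
  exact h1

theorem ev_exp_exp (A' c d : ℝ) (hc : 0 < c) (hd : 0 < d) :
    ∀ᶠ l : ℝ in atTop, c * Real.exp (A' * l) ≤ d * Real.exp (Real.exp l) := by
  have h1 := pow_exp_ev 1 (b := 1) (c := 1 / (2 * (|A'| + 1))) one_pos (by positivity)
  have h2 : ∀ᶠ l : ℝ in atTop, 2 * (Real.log c - Real.log d) ≤ Real.exp l :=
    Real.tendsto_exp_atTop.eventually_ge_atTop _
  filter_upwards [h1, h2, eventually_ge_atTop 0] with l g1 g2 g3
  rw [one_mul, pow_one] at g1
  have h3 : A' * l ≤ Real.exp l / 2 := by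
    have h4 : A' * l ≤ (|A'| + 1) * l :=
      mul_le_mul_of_nonneg_right (by linarith [le_abs_self A']) g3
    have h5 := mul_le_mul_of_nonneg_left g1 (by positivity : 0 ≤ |A'| + 1)
    have h6 : (|A'| + 1) * (1 / (2 * (|A'| + 1)) * Real.exp l) = Real.exp l / 2 := by
      field_simp
    linarith
  have e1 : c * Real.exp (A' * l) = Real.exp (Real.log c + A' * l) := by
    rw [Real.exp_add, Real.exp_log hc]
  have e2 : d * Real.exp (Real.exp l) = Real.exp (Real.log d + Real.exp l) := by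
    rw [Real.exp_add, Real.exp_log hd]
  rw [e1, e2]
  exact Real.exp_le_exp.2 (by linarith)

theorem log_w {w l y : ℝ} (hw : 0 < w) (hy : Real.log y ≤ 2 * Real.exp l) (hl : 16 ≤ l)
    (h3 : Real.exp (3 * l) ≤ w) :
    4 * Real.log y / w ≤ Real.log (1 + 256 * Real.exp l / w / 16) := by
  set u : ℝ := 16 * Real.exp l / w with hu
  have hL := Real.exp_pos l
  have hu0 : 0 < u := by positivity
  have e1 : 256 * Real.exp l / w / 16 = u := by
    rw [hu]
    ring
  rw [e1]
  have hu1 : u ≤ 1 := by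
    rw [hu, div_le_one hw]
    refine le_trans ?_ h3
    have h4 : Real.exp (3 * l) = Real.exp l * Real.exp (2 * l) := by
      rw [← Real.exp_add]
      congr 1
      ring
    have h5 := Real.add_one_le_exp (2 * l)
    rw [h4]
    nlinarith
  have h6 : 4 * Real.log y / w ≤ u / 2 := by
    rw [hu, div_le_iff₀ hw]
    have : 16 * Real.exp l / w / 2 * w = 8 * Real.exp l := by
      field_simp
      norm_num
    rw [this]
    linarith
  refine h6.trans ?_
  have h7 := Real.one_sub_inv_le_log_of_pos (by linarith : 0 < 1 + u)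
  refine le_trans ?_ h7
  have h8 : 1 - (1 + u)⁻¹ = u / (1 + u) := by
    field_simp
    ring
  rw [h8]
  exact div_le_div_of_nonneg_left hu0.le (by linarith) (by linarith)

theorem eps_w {w A' l ε : ℝ} (hw : 0 < w) (h1 : w ≤ Real.exp (A' * l))
    (h2 : A' * l ≤ 2 * Real.exp l) (hl : 0 ≤ l) (hε : ε = 256 * Real.exp l / w) :
    Real.exp (-2 * Real.exp l) ≤ ε / 2 := by
  rw [hε, div_div, le_div_iff₀ (by positivity)]
  have h3 : w ≤ Real.exp (2 * Real.exp l) := h1.trans (Real.exp_le_exp.2 h2)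
  have h4 : Real.exp (-2 * Real.exp l) * w ≤ 1 := by
    calc Real.exp (-2 * Real.exp l) * w ≤
          Real.exp (-2 * Real.exp l) * Real.exp (2 * Real.exp l) :=
          mul_le_mul_of_nonneg_left h3 (Real.exp_pos _).le
      _ = 1 := by
          rw [← Real.exp_add, ← Real.exp_zero]
          congr 1
          ring
  have h5 := Real.add_one_le_exp l
  linarith

end Pool.Agent.Helper13.RS
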