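import Mathlib

/-!
# MP_924f75: random classes, the probabilistic core
-/

set_option autoImplicit false

namespace Pool.Agent.Helper13.RS

open Finset

/-- all choices of one residue for every `s ∈ R` -/
def Om (R : Finset ℕ) : Finset (↥R → ℕ) := Fintype.piFinset fun s : ↥R => range (s : ℕ)

/-- `n` avoids the classes `r` -/
def Av (R : Finset ℕ) (r : ↥R → ℕ) (n : ℕ) : Prop := ∀ s : ↥R, n % (s : ℕ) ≠ r s

theorem card_Om (R : Finset ℕ) : ((Om R).card : ℝ) = ∏ s ∈ R, (s : ℝ) := by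
  unfold Om
  rw [Fintype.card_piFinset]
  simp only [Finset.card_range]
  rw [Finset.univ_eq_attach, Finset.prod_attach R (fun s => s)]
  push_cast
  rfl

open Classical in
theorem card_avoid (R : Finset ℕ) (hR : ∀ s ∈ R, 1 ≤ s) (S : Finset ℕ) :
    (((Om R).filter fun r => ∀ n ∈ S, Av R r n).card : ℕ) =
      ∏ s ∈ R, (s - (S.image (· % s)).card) := by
  have h1 : (Om R).filter (fun r => ∀ n ∈ S, Av R r n) =
      Fintype.piFinset fun s : ↥R => (range (s : ℕ)) \ (S.image (· % (s : ℕ))) := by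
    ext r
    rw [Finset.mem_filter]
    simp only [Om, Av, Fintype.mem_piFinset, Finset.mem_sdiff,
      Finset.mem_image, not_exists, not_and]
    constructor
    · intro h s
      exact ⟨h.1 s, fun n hn => h.2 n hn s⟩
    · intro h
      exact ⟨fun s => (h s).1, fun n hn s => (h s).2 n hn⟩
  rw [h1, Fintype.card_piFinset, Finset.univ_eq_attach,
    ← Finset.prod_attach R (fun s => s - (S.image (· % s)).card)]
  refine Finset.prod_congr rfl fun s _ => ?_
  have h2 : S.image (· % (s : ℕ)) ⊆ range (s : ℕ) := by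
    intro a ha
    rw [Finset.mem_image] at ha
    obtain ⟨n, _, rfl⟩ := ha
    rw [Finset.mem_range]
    exact Nat.mod_lt _ (hR s s.2)
  rw [Finset.card_sdiff_of_subset h2, Finset.card_range]

open Classical in
/-- first moment -/
theorem card_one (R : Finset ℕ) (hR : ∀ s ∈ R, 1 ≤ s) (n : ℕ) :
    (((Om R).filter fun r => Av R r n).card : ℝ) =
      (∏ s ∈ R, (s : ℝ)) * ∏ s ∈ R, (1 - 1 / (s : ℝ)) := by
  have h1 := card_avoid R hR {n}
  simp only [Finset.mem_singleton, forall_eq, Finset.image_singleton,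
    Finset.card_singleton] at h1
  rw [h1, ← Finset.prod_mul_distrib]
  push_cast
  refine Finset.prod_congr rfl fun s hs => ?_
  have h2 := hR s hs
  have h3 : (0 : ℝ) < s := by exact_mod_cast h2
  rw [Nat.cast_sub h2]
  field_simp
  push_cast
  ring

open Classical in
/-- pairs -/
theorem card_pair (R : Finset ℕ) (hR : ∀ s ∈ R, 3 ≤ s) (n n' : ℕ) :
    (((Om R).filter fun r => Av R r n ∧ Av R r n').card : ℝ) ≤
      (∏ s ∈ R, (s : ℝ)) * (∏ s ∈ R, (1 - 1 / (s : ℝ))) ^ 2 *
        ∏ s ∈ R.filter (fun s => n % s = n' % s), (((s : ℝ) - 1) / ((s : ℝ) - 2)) := by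
  have h1 := card_avoid R (fun s hs => by have := hR s hs; omega) {n, n'}
  have h2 : (Om R).filter (fun r => Av R r n ∧ Av R r n') =
      (Om R).filter fun r => ∀ m ∈ ({n, n'} : Finset ℕ), Av R r m := by
    refine Finset.filter_congr fun r _ => ?_
    simp
  rw [h2, h1, Finset.prod_filter, ← Finset.prod_pow, ← Finset.prod_mul_distrib,
    ← Finset.prod_mul_distrib, Nat.cast_prod]
  refine Finset.prod_le_prod (fun s _ => Nat.cast_nonneg _) fun s hs => ?_
  have h3 := hR s hs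
  have h3' : (3 : ℝ) ≤ s := by exact_mod_cast h3
  have hs0 : (0 : ℝ) < s := by linarith
  have hs2 : (0 : ℝ) < (s : ℝ) - 2 := by linarith
  rw [Finset.image_insert, Finset.image_singleton]
  by_cases h4 : n % s = n' % s
  · rw [if_pos h4, h4, Finset.pair_eq_singleton, Finset.card_singleton, Nat.cast_sub (by omega)]
    have e : (s : ℝ) * (1 - 1 / (s : ℝ)) ^ 2 * (((s : ℝ) - 1) / ((s : ℝ) - 2)) =
        ((s : ℝ) - 1) ^ 3 / (s * (s - 2)) := by
      field_simp
    rw [e, le_div_iff₀ (by positivity)]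
    push_cast
    nlinarith [mul_nonneg (by linarith : (0 : ℝ) ≤ (s : ℝ) - 1) (by linarith : (0 : ℝ) ≤ (s : ℝ) - 2)]
  · rw [if_neg h4, mul_one, Finset.card_pair h4, Nat.cast_sub (by omega)]
    have e : (s : ℝ) * (1 - 1 / (s : ℝ)) ^ 2 = ((s : ℝ) - 1) ^ 2 / s := by
      field_simp
    rw [e, le_div_iff₀ hs0]
    push_cast
    nlinarith

open Classical in
/-- the second moment method -/
theorem second (R D : Finset ℕ) (hR : ∀ s ∈ R, 3 ≤ s) (ε : ℝ) (hε : 0 < ε)
    (h3 : ∀ n ∈ D, ∀ n' ∈ D, n ≠ n' →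
      ∏ s ∈ R.filter (fun s => n % s = n' % s), (((s : ℝ) - 1) / ((s : ℝ) - 2)) ≤ 1 + ε / 16)
    (h4 : 16 / ε ≤ D.card * ∏ s ∈ R, (1 - 1 / (s : ℝ))) :
    (((Om R).filter fun r => ((D.filter fun n => Av R r n).card : ℝ) <
      D.card * (∏ s ∈ R, (1 - 1 / (s : ℝ))) / 2).card : ℝ) ≤ ε / 2 * ∏ s ∈ R, (s : ℝ) := by
  set V := ∏ s ∈ R, (1 - 1 / (s : ℝ)) with hV
  set W := ∏ s ∈ R, (s : ℝ) with hW
  set μ := (D.card : ℝ) * V with hμ
  have hμ0 : 0 < μ := lt_of_lt_of_le (by positivity) h4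
  have hW0 : 0 ≤ W := Finset.prod_nonneg fun s _ => Nat.cast_nonneg s
  have hR1 : ∀ s ∈ R, 1 ≤ s := fun s hs => by have := hR s hs; omega
  have hV0 : 0 ≤ V := Finset.prod_nonneg fun s hs => by
    have : (1 : ℝ) ≤ s := by exact_mod_cast hR1 s hs
    rw [sub_nonneg, div_le_one (by linarith)]
    exact this
  set N : (↥R → ℕ) → ℝ := fun r => ((D.filter fun n => Av R r n).card : ℝ) with hN
  have hNs : ∀ r, N r = ∑ n ∈ D, if Av R r n then (1 : ℝ) else 0 := by
    intro r
    rw [hN]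
    dsimp only
    rw [Finset.card_filter]
    push_cast
    rfl
  have hS1 : ∑ r ∈ Om R, N r = W * μ := by
    simp only [hNs]
    rw [Finset.sum_comm]
    have h5 : ∀ n ∈ D, ∑ r ∈ Om R, (if Av R r n then (1 : ℝ) else 0) = W * V := by
      intro n _
      rw [← card_one R hR1 n, Finset.card_filter]
      push_cast
      rfl
    rw [Finset.sum_congr rfl h5, Finset.sum_const, nsmul_eq_mul, hμ]
    ring
  have hS2 : ∑ r ∈ Om R, N r ^ 2 ≤ W * (μ + (1 + ε / 16) * μ ^ 2) := by
    have h5 : ∀ r, N r ^ 2 = ∑ n ∈ D, ∑ n' ∈ D,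
        if Av R r n ∧ Av R r n' then (1 : ℝ) else 0 := by
      intro r
      rw [hNs, sq, Finset.sum_mul_sum]
      refine Finset.sum_congr rfl fun n _ => Finset.sum_congr rfl fun n' _ => ?_
      by_cases h6 : Av R r n <;> by_cases h7 : Av R r n' <;> simp [h6, h7]
    have h6 : ∑ r ∈ Om R, N r ^ 2 = ∑ n ∈ D, ∑ n' ∈ D,
        (((Om R).filter fun r => Av R r n ∧ Av R r n').card : ℝ) := by
      rw [Finset.sum_congr rfl fun r _ => h5 r, Finset.sum_comm]
      refine Finset.sum_congr rfl fun n _ => ?_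
      rw [Finset.sum_comm]
      refine Finset.sum_congr rfl fun n' _ => ?_
      rw [Finset.card_filter]
      push_cast
      rfl
    rw [h6]
    have h7 : ∀ n ∈ D, ∀ n' ∈ D, (((Om R).filter fun r => Av R r n ∧ Av R r n').card : ℝ) ≤
        (if n = n' then W * V else 0) + W * V ^ 2 * (1 + ε / 16) := by
      intro n hn n' hn'
      by_cases h8 : n = n'
      · subst h8
        rw [if_pos rfl]
        simp only [and_self]
        rw [card_one R hR1 n]
        have : 0 ≤ W * V ^ 2 * (1 + ε / 16) := by positivity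
        linarith
      · rw [if_neg h8, zero_add]
        refine (card_pair R hR n n').trans ?_
        exact mul_le_mul_of_nonneg_left (h3 n hn n' hn' h8) (by positivity)
    refine (Finset.sum_le_sum fun n hn => Finset.sum_le_sum fun n' hn' => h7 n hn n' hn').trans ?_
    simp only [Finset.sum_add_distrib, Finset.sum_const, nsmul_eq_mul]
    have h9 : ∑ n ∈ D, ∑ n' ∈ D, (if n = n' then W * V else 0) = D.card * (W * V) := by
      have : ∀ n ∈ D, ∑ n' ∈ D, (if n = n' then W * V else 0) = W * V := by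
        intro n hn
        rw [Finset.sum_ite_eq, if_pos hn]
      rw [Finset.sum_congr rfl this, Finset.sum_const, nsmul_eq_mul]
    rw [h9, hμ]
    refine le_of_eq ?_
    ring
  have hS3 : ∑ r ∈ Om R, (N r - μ) ^ 2 ≤ W * (μ + ε / 16 * μ ^ 2) := by
    have e : ∀ r ∈ Om R, (N r - μ) ^ 2 = N r ^ 2 - 2 * μ * N r + μ ^ 2 := fun r _ => by ring
    rw [Finset.sum_congr rfl e, Finset.sum_add_distrib, Finset.sum_sub_distrib,
      ← Finset.mul_sum, hS1, Finset.sum_const, nsmul_eq_mul, card_Om, ← hW]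
    nlinarith
  set B := (Om R).filter fun r => N r < μ / 2 with hB
  have hB1 : (B.card : ℝ) * (μ ^ 2 / 4) ≤ ∑ r ∈ Om R, (N r - μ) ^ 2 := by
    have h5 : ∑ r ∈ B, μ ^ 2 / 4 ≤ ∑ r ∈ B, (N r - μ) ^ 2 := by
      refine Finset.sum_le_sum fun r hr => ?_
      rw [hB, Finset.mem_filter] at hr
      have h6 : μ / 2 ≤ μ - N r := by linarith [hr.2]
      nlinarith
    rw [Finset.sum_const, nsmul_eq_mul] at h5
    refine h5.trans (Finset.sum_le_sum_of_subset_of_nonneg (Finset.filter_subset _ _) ?_)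
    intro r _ _
    positivity
  have hfin : (B.card : ℝ) ≤ ε / 2 * W := by
    have h5 := hB1.trans hS3
    have h6 : W * (μ + ε / 16 * μ ^ 2) ≤ ε / 2 * W * (μ ^ 2 / 4) := by
      have h7 : μ ≤ ε / 16 * μ ^ 2 := by
        have h8 : 16 ≤ ε * μ := by
          rw [div_le_iff₀ hε] at h4
          linarith
        nlinarith
      nlinarith
    have h7 := h5.trans h6
    exact le_of_mul_le_mul_right h7 (by positivity)
  exact hfin

open Classical in
/-- many survivors in one class -/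
theorem one_bad (R : Finset ℕ) (hR : ∀ s ∈ R, 1 ≤ s) (D₁ : Finset ℕ) (M K₀ E σ : ℝ)
    (hσ : σ = ∑ s ∈ R, 1 / (s : ℝ)) (hE : Real.exp 1 ≤ E) (hK : 0 ≤ K₀)
    (h1 : (D₁.card : ℝ) ≤ M)
    (h2 : ∀ n ∈ D₁, ∀ n' ∈ D₁, n ≠ n' → ∀ s ∈ R, n % s ≠ n' % s) :
    (((Om R).filter fun r => K₀ + E * Real.exp (-σ) * M ≤
      ((D₁.filter fun n => Av R r n).card : ℝ)).card : ℝ) ≤
      (Real.exp 1 / E) ^ K₀ * ∏ s ∈ R, (s : ℝ) := by
  have hM0 : 0 ≤ M := (Nat.cast_nonneg _).trans h1
  have hE0 : 0 < E := (Real.exp_pos 1).trans_le hE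
  set L : ℝ := K₀ + E * Real.exp (-σ) * M with hL
  have hL0 : 0 ≤ E * Real.exp (-σ) * M := by positivity
  set κ : ℕ := ⌈L⌉₊ with hκ
  have hκL : L ≤ κ := Nat.le_ceil L
  have hW0 : 0 ≤ ∏ s ∈ R, (s : ℝ) := Finset.prod_nonneg fun s _ => Nat.cast_nonneg s
  -- a subset of size κ
  have hsub : (Om R).filter (fun r => L ≤ ((D₁.filter fun n => Av R r n).card : ℝ)) ⊆
      (D₁.powersetCard κ).biUnion fun U => (Om R).filter fun r => ∀ n ∈ U, Av R r n := by
    intro r hr
    rw [Finset.mem_filter] at hr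
    have h3 : κ ≤ (D₁.filter fun n => Av R r n).card := Nat.ceil_le.2 hr.2
    obtain ⟨U, hU1, hU2⟩ := Finset.exists_subset_card_eq h3
    rw [Finset.mem_biUnion]
    refine ⟨U, ?_, ?_⟩
    · rw [Finset.mem_powersetCard]
      exact ⟨hU1.trans (Finset.filter_subset _ _), hU2⟩
    · rw [Finset.mem_filter]
      exact ⟨hr.1, fun n hn => (Finset.mem_filter.1 (hU1 hn)).2⟩
  have hone : ∀ U ∈ D₁.powersetCard κ, (((Om R).filter fun r => ∀ n ∈ U, Av R r n).card : ℝ) ≤
      (∏ s ∈ R, (s : ℝ)) * Real.exp (-σ * κ) := by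
    intro U hU
    rw [Finset.mem_powersetCard] at hU
    rw [card_avoid R hR U, Nat.cast_prod]
    have e : Real.exp (-σ * κ) = ∏ s ∈ R, Real.exp (-(κ / (s : ℝ))) := by
      rw [← Real.exp_sum]
      congr 1
      rw [hσ, Finset.sum_neg_distrib, neg_mul, Finset.sum_mul]
      congr 1
      refine Finset.sum_congr rfl fun s _ => ?_
      ring
    rw [e, ← Finset.prod_mul_distrib]
    refine Finset.prod_le_prod (fun s _ => Nat.cast_nonneg _) fun s hs => ?_
    have h3 : (U.image (· % s)).card = κ := by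
      rw [Finset.card_image_of_injOn, hU.2]
      intro n hn n' hn' h
      by_contra h4
      exact h2 n (hU.1 hn) n' (hU.1 hn') h4 s hs h
    rw [h3]
    have hs1 : (0 : ℝ) < s := by exact_mod_cast hR s hs
    rcases le_or_gt κ s with h4 | h4
    · rw [Nat.cast_sub h4]
      have h5 := Real.add_one_le_exp (-(κ / (s : ℝ)))
      have h6 : (s : ℝ) - κ = s * (-(κ / (s : ℝ)) + 1) := by
        field_simp
        ring
      rw [h6]
      exact mul_le_mul_of_nonneg_left h5 hs1.le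
    · rw [Nat.sub_eq_zero_of_le h4.le, Nat.cast_zero]
      positivity
  have hcard : (((Om R).filter fun r => L ≤ ((D₁.filter fun n => Av R r n).card : ℝ)).card : ℝ) ≤
      (D₁.card.choose κ : ℝ) * ((∏ s ∈ R, (s : ℝ)) * Real.exp (-σ * κ)) := by
    have h3 := (Finset.card_le_card hsub).trans Finset.card_biUnion_le
    have h4 : (((Om R).filter fun r => L ≤ ((D₁.filter fun n => Av R r n).card : ℝ)).card : ℝ) ≤
        ∑ U ∈ D₁.powersetCard κ, (((Om R).filter fun r => ∀ n ∈ U, Av R r n).card : ℝ) := by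
      exact_mod_cast h3
    refine h4.trans ((Finset.sum_le_sum hone).trans ?_)
    rw [Finset.sum_const, Finset.card_powersetCard, nsmul_eq_mul]
  have hmain : (D₁.card.choose κ : ℝ) * Real.exp (-σ * κ) ≤ (Real.exp 1 / E) ^ K₀ := by
    have h3 : (D₁.card.choose κ : ℝ) ≤ M ^ κ / (κ.factorial : ℝ) := by
      refine (Nat.choose_le_pow_div κ D₁.card).trans ?_
      exact div_le_div_of_nonneg_right (pow_le_pow_left₀ (Nat.cast_nonneg _) h1 κ) (by positivity)
    have h4 : Real.exp (-σ * κ) = Real.exp (-σ) ^ κ := by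
      rw [← Real.exp_nat_mul]
      congr 1
      ring
    have h5 : (M * Real.exp (-σ)) ≤ κ / E := by
      rw [le_div_iff₀ hE0]
      linarith
    have h6 : (κ : ℝ) ^ κ / (κ.factorial : ℝ) ≤ Real.exp κ :=
      Real.pow_div_factorial_le_exp _ (Nat.cast_nonneg κ) κ
    have h7 : M ^ κ / (κ.factorial : ℝ) * Real.exp (-σ) ^ κ ≤ (Real.exp 1 / E) ^ κ := by
      have e1 : M ^ κ / (κ.factorial : ℝ) * Real.exp (-σ) ^ κ =
          (M * Real.exp (-σ)) ^ κ / (κ.factorial : ℝ) := by
        rw [mul_pow]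
        ring
      have e2 : (Real.exp 1 / E) ^ κ = Real.exp κ / E ^ κ := by
        rw [div_pow, ← Real.exp_nat_mul, mul_one]
      rw [e1, e2]
      have h8 : (M * Real.exp (-σ)) ^ κ ≤ (κ / E) ^ κ :=
        pow_le_pow_left₀ (by positivity) h5 κ
      have h9 : (M * Real.exp (-σ)) ^ κ / (κ.factorial : ℝ) ≤
          (κ / E) ^ κ / (κ.factorial : ℝ) :=
        div_le_div_of_nonneg_right h8 (by positivity)
      refine h9.trans ?_
      have e3 : ((κ : ℝ) / E) ^ κ / (κ.factorial : ℝ) = ((κ : ℝ) ^ κ / (κ.factorial : ℝ)) / E ^ κ := by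
        rw [div_pow]
        ring
      rw [e3]
      exact div_le_div_of_nonneg_right h6 (by positivity)
    rw [h4]
    refine (mul_le_mul_of_nonneg_right h3 (by positivity)).trans (h7.trans ?_)
    rw [← Real.rpow_natCast]
    refine Real.rpow_le_rpow_of_exponent_ge (by positivity) ((div_le_one hE0).2 hE) ?_
    linarith
  refine hcard.trans ?_
  have e : (D₁.card.choose κ : ℝ) * ((∏ s ∈ R, (s : ℝ)) * Real.exp (-σ * κ)) =
      ((D₁.card.choose κ : ℝ) * Real.exp (-σ * κ)) * ∏ s ∈ R, (s : ℝ) := by ring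
  rw [e]
  exact mul_le_mul_of_nonneg_right hmain hW0

open Classical in
/-- the probabilistic core -/
theorem core (R P D : Finset ℕ) (hR : ∀ s ∈ R, 3 ≤ s) (hP : ∀ p ∈ P, 1 ≤ p) (M : ℕ → ℝ)
    (K₀ E ε σ : ℝ) (hε : 0 < ε) (hE : Real.exp 1 ≤ E) (hK : 0 ≤ K₀)
    (hσ : σ = ∑ s ∈ R, 1 / (s : ℝ))
    (h1 : ∀ p ∈ P, ∀ a : ℕ, ((D.filter fun n => n % p = a).card : ℝ) ≤ M p)
    (h2 : ∀ p ∈ P, ∀ n ∈ D, ∀ n' ∈ D, n % p = n' % p → n ≠ n' → ∀ s ∈ R, n % s ≠ n' % s)
    (h3 : ∀ n ∈ D, ∀ n' ∈ D, n ≠ n' →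
      ∏ s ∈ R.filter (fun s => n % s = n' % s), (((s : ℝ) - 1) / ((s : ℝ) - 2)) ≤ 1 + ε / 16)
    (h4 : 16 / ε ≤ D.card * ∏ s ∈ R, (1 - 1 / (s : ℝ)))
    (h5 : P.card * K₀ + E * Real.exp (-σ) * ∑ p ∈ P, M p ≤
      D.card * (∏ s ∈ R, (1 - 1 / (s : ℝ))) / 2)
    (hP0 : P.Nonempty)
    (h6 : (∑ p ∈ P, (p : ℝ)) * (Real.exp 1 / E) ^ K₀ ≤ ε / 2) :
    (((Om R).filter fun r => ∃ b : ℕ → ℕ, ∀ n ∈ D, Av R r n → ∃ p ∈ P, n % p = b p).card : ℝ) ≤
      ε * ∏ s ∈ R, (s : ℝ) := by
  have hR1 : ∀ s ∈ R, 1 ≤ s := fun s hs => by have := hR s hs; omega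
  set V := ∏ s ∈ R, (1 - 1 / (s : ℝ)) with hV
  set W := ∏ s ∈ R, (s : ℝ) with hW
  have hW0 : 0 ≤ W := Finset.prod_nonneg fun s _ => Nat.cast_nonneg s
  set B1 := (Om R).filter fun r => ((D.filter fun n => Av R r n).card : ℝ) < D.card * V / 2
    with hB1
  set B2 := P.biUnion fun p => (range p).biUnion fun a => (Om R).filter fun r =>
    K₀ + E * Real.exp (-σ) * M p ≤
      (((D.filter fun n => n % p = a).filter fun n => Av R r n).card : ℝ) with hB2
  have hsub : (Om R).filter (fun r => ∃ b : ℕ → ℕ, ∀ n ∈ D, Av R r n → ∃ p ∈ P, n % p = b p) ⊆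
      B1 ∪ B2 := by
    intro r hr
    rw [Finset.mem_filter] at hr
    obtain ⟨hr0, b, hb⟩ := hr
    by_contra hcon
    rw [Finset.mem_union, not_or] at hcon
    obtain ⟨hc1, hc2⟩ := hcon
    rw [hB1, Finset.mem_filter, not_and, not_lt] at hc1
    have hc1' := hc1 hr0
    have hcls : ∀ p ∈ P, (((D.filter fun n => n % p = b p).filter fun n => Av R r n).card : ℝ) <
        K₀ + E * Real.exp (-σ) * M p := by
      intro p hp
      by_contra hcon
      rw [not_lt] at hcon
      by_cases hbp : b p < p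
      · apply hc2
        rw [hB2, Finset.mem_biUnion]
        refine ⟨p, hp, ?_⟩
        rw [Finset.mem_biUnion]
        refine ⟨b p, Finset.mem_range.2 hbp, ?_⟩
        rw [Finset.mem_filter]
        exact ⟨hr0, hcon⟩
      · -- the class is empty
        have hM0 : 0 ≤ M p := (Nat.cast_nonneg _).trans (h1 p hp 0)
        have he : D.filter (fun n => n % p = b p) = ∅ := by
          rw [Finset.filter_eq_empty_iff]
          intro n _ h
          have := Nat.mod_lt n (hP p hp)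
          omega
        rw [he, Finset.filter_empty, Finset.card_empty] at hcon
        have hE0 : 0 < E := (Real.exp_pos 1).trans_le hE
        have h7 : 0 ≤ E * Real.exp (-σ) * M p := by positivity
        have h8 : K₀ + E * Real.exp (-σ) * M p = 0 := by
          push_cast at hcon
          linarith
        apply hc2
        rw [hB2, Finset.mem_biUnion]
        refine ⟨p, hp, ?_⟩
        rw [Finset.mem_biUnion]
        refine ⟨0, Finset.mem_range.2 (hP p hp), ?_⟩
        rw [Finset.mem_filter]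
        refine ⟨hr0, ?_⟩
        rw [h8]
        exact Nat.cast_nonneg _
    have hcov : D.filter (fun n => Av R r n) ⊆
        P.biUnion fun p => (D.filter fun n => n % p = b p).filter fun n => Av R r n := by
      intro n hn
      rw [Finset.mem_filter] at hn
      obtain ⟨p, hp, h7⟩ := hb n hn.1 hn.2
      rw [Finset.mem_biUnion]
      refine ⟨p, hp, ?_⟩
      rw [Finset.mem_filter, Finset.mem_filter]
      exact ⟨⟨hn.1, h7⟩, hn.2⟩
    have h7 := (Finset.card_le_card hcov).trans Finset.card_biUnion_le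
    have h8 : ((D.filter fun n => Av R r n).card : ℝ) ≤
        ∑ p ∈ P, (((D.filter fun n => n % p = b p).filter fun n => Av R r n).card : ℝ) := by
      exact_mod_cast h7
    have h9 : ∑ p ∈ P, (((D.filter fun n => n % p = b p).filter fun n => Av R r n).card : ℝ) <
        ∑ p ∈ P, (K₀ + E * Real.exp (-σ) * M p) := Finset.sum_lt_sum_of_nonempty hP0 hcls
    rw [Finset.sum_add_distrib, Finset.sum_const, nsmul_eq_mul, ← Finset.mul_sum] at h9
    linarith
  have hc := (Finset.card_le_card hsub).trans (Finset.card_union_le _ _)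
  have hc' : (((Om R).filter fun r => ∃ b : ℕ → ℕ, ∀ n ∈ D, Av R r n →
      ∃ p ∈ P, n % p = b p).card : ℝ) ≤ B1.card + B2.card := by exact_mod_cast hc
  have hb1 : (B1.card : ℝ) ≤ ε / 2 * W := second R D hR ε hε h3 h4
  have hb2 : (B2.card : ℝ) ≤ ε / 2 * W := by
    have h7 : B2.card ≤ ∑ p ∈ P, ∑ a ∈ range p, ((Om R).filter fun r =>
        K₀ + E * Real.exp (-σ) * M p ≤
        (((D.filter fun n => n % p = a).filter fun n => Av R r n).card : ℝ)).card := by
      rw [hB2]
      exact Finset.card_biUnion_le.trans (Finset.sum_le_sum fun p _ => Finset.card_biUnion_le)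
    have h8 : (B2.card : ℝ) ≤ ∑ p ∈ P, ∑ a ∈ range p, (((Om R).filter fun r =>
        K₀ + E * Real.exp (-σ) * M p ≤
        (((D.filter fun n => n % p = a).filter fun n => Av R r n).card : ℝ)).card : ℝ) := by
      exact_mod_cast h7
    refine h8.trans ?_
    have h9 : ∀ p ∈ P, ∀ a ∈ range p, (((Om R).filter fun r =>
        K₀ + E * Real.exp (-σ) * M p ≤
        (((D.filter fun n => n % p = a).filter fun n => Av R r n).card : ℝ)).card : ℝ) ≤
        (Real.exp 1 / E) ^ K₀ * W := by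
      intro p hp a _
      refine one_bad R hR1 (D.filter fun n => n % p = a) (M p) K₀ E σ hσ hE hK (h1 p hp a) ?_
      intro n hn n' hn' hne s hs
      rw [Finset.mem_filter] at hn hn'
      exact h2 p hp n hn.1 n' hn'.1 (hn.2.trans hn'.2.symm) hne s hs
    refine (Finset.sum_le_sum fun p hp => Finset.sum_le_sum (h9 p hp)).trans ?_
    simp only [Finset.sum_const, Finset.card_range, nsmul_eq_mul]
    rw [← Finset.sum_mul, ← mul_assoc]
    exact mul_le_mul_of_nonneg_right h6 hW0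
  linarith

end Pool.Agent.Helper13.RS
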