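import Pool.Agent.Helper13.JC.C3
import Pool.Agent.Helper13.RS.R1

/-!
# Project RS (MP_924f75_nt): the limit of the random sieve in the construction of large gaps

THEOREM. Classes `a p` for the primes `p ≤ w` (`w` a power of `log x`) fixed arbitrarily, uniform independent random classes for
`w < p ≤ z`, class `0` for `z < p ≤ x/T`, classes chosen by an adversary (after the random ones) for `x/T < p ≤ x`. For every `z ≤ x/T`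
the interval `[1,y]` is, with probability tending to one, not covered if `y ≥ C x (log x / loglog x)^2`.

All statements `St...` are proved in modules `M_...lean`. The bricks of `Pool/Agent/Helper13/JC` (namespace `Pool.Agent.Helper13.JC`) are
theorems and may be used: `crt`, `card_res`, `card_two`, `Sw`, `upper`, `prod_Sw`, `mert`, `prod_ge`, `prod_le`, `one_sub_ge_exp`,
`sum_inv_sq_le`, `offSum_mert`, `window`.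
-/

set_option autoImplicit false

namespace Pool.Agent.Helper13.RS

open Finset

/-- `n` avoids the classes `a s` of the primes `s ≤ w` -/
def Avd (w : ℝ) (a : ℕ → ℤ) (n : ℕ) : Prop :=
  ∀ s : ℕ, s.Prime → (s : ℝ) ≤ w → ¬ (n : ℤ) ≡ a s [ZMOD (s : ℤ)]

open Classical in
/-- the odd primes `s ≤ w` with `s ∤ a s` -/
noncomputable def QQ (w : ℝ) (a : ℕ → ℤ) : Finset ℕ :=
  (Icc 3 ⌊w⌋₊).filter fun s => s.Prime ∧ ¬ (s : ℤ) ∣ a s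

open Classical in
/-- the primes `s ≤ w` with `s = 2` or `s ∣ a s` -/
noncomputable def BB (w : ℝ) (a : ℕ → ℤ) : Finset ℕ :=
  (Icc 2 ⌊w⌋₊).filter fun s => s.Prime ∧ (s = 2 ∨ (s : ℤ) ∣ a s)

open Classical in
/-- `1` if `a 2` is even, `2` if it is odd -/
noncomputable def e2 (a : ℕ → ℤ) : ℕ := if (2 : ℤ) ∣ a 2 then 1 else 2

open Classical in
/-- the primes in `(u, v]` -/
noncomputable def Pr (u v : ℝ) : Finset ℕ := (Icc 1 ⌊v⌋₊).filter fun p => p.Prime ∧ u < (p : ℝ)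

/-- the statement of the lower bound sieve `Pool.Agent.Helper13.JC.lower` -/
def StLw : Prop := ∃ c₀ κ X₀ : ℝ, 0 < c₀ ∧ 0 < κ ∧ κ ≤ 1 / 4 ∧ 2 ≤ X₀ ∧ ∀ X : ℕ, X₀ ≤ X →
  ∀ (Q : Finset ℕ) (c : ℕ → ℤ), (∀ s ∈ Q, s.Prime ∧ 3 ≤ s ∧ (s : ℝ) ≤ (X : ℝ) ^ κ) →
  (∀ s ∈ Q, ¬ (s : ℤ) ∣ c s) →
  ∃ F : Finset ℕ, (∀ q ∈ F, X < q ∧ q ≤ 2 * X ∧ q.Prime ∧ ∀ s ∈ Q, ¬ (s : ℤ) ∣ (q : ℤ) - c s) ∧
    c₀ * (X / Real.log X) * ∏ s ∈ Q, (1 - 1 / ((s : ℝ) - 1)) ≤ F.card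

/-- SM (50 lines). Sums of `1/m` over the `m ≤ U` free of the primes of `B`.

Proof. Induction on `B`. Empty: `log U ≤ ∑_{m ≤ U} 1/m` (`log_le_harmonic` or `Real.log (U+1) ≤ harmonic`, cast). Step, `p ∉ B`, `S_B(U)` the sum:
`S_B(U) = S_{B ∪ p}(U) + ∑_{m ≤ U, p ∣ m, m free of B} 1/m`, and `m = p m₁` with `m₁ ≤ U/p ≤ U` free of `B`, so the last sum is at most `(1/p) S_B(U)`
(the map `m ↦ m/p` is injective on multiples of `p`). Hence `S_{B ∪ p}(U) ≥ (1 - 1/p) S_B(U)`. -/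
def StSM : Prop := ∀ (B : Finset ℕ) (U : ℕ), (∀ p ∈ B, p.Prime) → 1 ≤ U →
  (∏ p ∈ B, (1 - 1 / (p : ℝ))) * Real.log U ≤
    ∑ m ∈ (Icc 1 U).filter (fun m => ∀ p ∈ B, ¬ p ∣ m), 1 / (m : ℝ)

/-- PQ (60 lines). `QQ w a` and `BB w a` are disjoint subsets of the primes `≤ ⌊w⌋` and their union is all of them.

Proof. `JC.prod_ge` for `QQ` (all elements are `≥ 3`): the second product is `≥ exp(-∑_{QQ} 1/s - 5)`. For `BB`: `1 - 1/p ≥ exp(-(1/p + 1/p²))`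
(`JC.one_sub_ge_exp`, `1/p ≤ 1/2`), so with `JC.sum_inv_sq_le` the first product is `≥ exp(-∑_{BB} 1/p - 1)`. The product is
`≥ exp(-∑_{p ≤ ⌊w⌋} 1/p - 6) ≥ exp(-loglog ⌊w⌋ - C - 6) = e^(-C-6) / log ⌊w⌋ ≥ e^(-C-6)/ log w` (`JC.mert`). -/
def StPQ : Prop := ∃ c : ℝ, 0 < c ∧ ∀ (w : ℝ) (a : ℕ → ℤ), 3 ≤ w →
  c / Real.log w ≤ (∏ p ∈ BB w a, (1 - 1 / (p : ℝ))) * ∏ s ∈ QQ w a, (1 - 1 / ((s : ℝ) - 1))

/-- LO (100 lines; theorem hLO (h : StLw) : StLO). Primes `q` in `(X, 2X]` such that `e2 a * m * P * q` avoids the classes `a s`, `s ≤ w`;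
`m` has no prime factor in `BB w a` and `P` has no prime factor `≤ w`.

Proof. Constants `c = c₀`, `κ`, `X₀` of `StLw`. Let `n₀ = e2 a * m * P ≥ 1`, `Q = {s ∈ QQ w a : s ∤ m}` (equivalently `s ∤ n₀`: `s ≥ 3` does not divide `e2 a ∈ {1,2}`,
and does not divide `P`). For `s ∈ Q` there is an integer `u_s` with `s ∣ u_s n₀ - 1` (`Nat.Coprime`, Bezout / `Int.exists_mul_emod_eq_one_of_coprime`), put
`c s = a s u_s`, not divisible by `s`. Apply `StLw` to `Q`, `c` (`s ≤ w ≤ X^κ`). Let `q ∈ F`. Claim `Avd w a (n₀ q)`: let `s ≤ w` be prime.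
`s = 2`: `m` is odd (`2 ∈ BB` as `w ≥ 2`), `P` is odd (`w ≥ 2`), `q > X ≥ 2` is odd; if `2 ∣ a 2` then `e2 a = 1`, `n₀ q` is odd and `a 2` even; otherwise
`e2 a = 2`, `n₀ q` is even and `a 2` odd. `s ≥ 3`, `s ∣ a s` (so `s ∈ BB`): if `n₀ q ≡ a s ≡ 0` then `s ∣ n₀ q`, but `s ∤ e2 a`, `s ∤ m`, `s ∤ P`, and `s = q` is impossible
as `s ≤ w ≤ X^κ ≤ X < q`. `s ≥ 3`, `s ∤ a s`, `s ∣ m`: `n₀ q ≡ 0`, not `≡ a s`. `s ≥ 3`, `s ∤ a s`, `s ∤ m`: `s ∈ Q`, and `n₀ q ≡ a s` gives `q ≡ u_s n₀ q ≡ u_s a s = c s`, absurd.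
The product over `Q ⊆ QQ w a` is at least the product over `QQ w a` (all factors in `[0,1]`, `s ≥ 3`). -/
def StLO : Prop := ∃ c κ X₀ : ℝ, 0 < c ∧ 0 < κ ∧ κ ≤ 1 / 4 ∧ 2 ≤ X₀ ∧
  ∀ (w : ℝ) (a : ℕ → ℤ) (m P X : ℕ), 2 ≤ w → X₀ ≤ X → w ≤ (X : ℝ) ^ κ → 1 ≤ m → 1 ≤ P →
  (∀ p ∈ BB w a, ¬ p ∣ m) → (∀ p : ℕ, p.Prime → p ∣ P → w < (p : ℝ)) →
  ∃ F : Finset ℕ, (∀ q ∈ F, X < q ∧ q ≤ 2 * X ∧ q.Prime ∧ Avd w a (e2 a * m * P * q)) ∧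
    c * (X / Real.log X) * ∏ s ∈ QQ w a, (1 - 1 / ((s : ℝ) - 1)) ≤ F.card

/-- CL (120 lines). Numbers of one class modulo a large prime `p` which avoid the classes `a s`, `s ≤ w`.

Proof. Let `B` be the exponent of `JC.upper`, `N = y / p + 1` (integer part), `w₁ = ⌊N^(1/(B+2))⌋₊ ≥ 1`, so `w₁^B ≤ w₁^(B+2) ≤ N`, and `w₁² ≤ N ≤ y/p + 1 ≤ (y/p)²` (as `y/p ≥ 2`),
so `w₁ ≤ y/p ≤ w < p`. We may assume `r < p` (otherwise the set is empty). Every `n` of the set is `n = r + h p` with `h = n / p < N`, and `h ↦ n` is injective. `JC.crt p r a (Sw w₁)` gives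
`h₀` with `s ∣ r + h₀ p - a s` for all `s ∈ Sw w₁` (primes `5 ≤ s ≤ w₁ < p`, so `s ∤ p`). For these `s`: `¬ n ≡ a s` gives `¬ s ∣ (h - h₀) p`, i.e. `¬ s ∣ b + h p` with
`b = - h₀ p`. So the set injects into the set of `JC.upper` with `w₁, N, p, b`, `Q = ∅` (any `c`), and the bound is `3 N ∏_{s ∈ Sw w₁} (1 - 1/s) ≤ 3 N C / log (w₁ + 1)` (`JC.prod_Sw`; the
second product is empty). `N ≤ 2 y/p`, `log (w₁ + 1) ≥ log (N^(1/(B+2))) ≥ log (y/p) / (B+2)` (`N ≥ y/p` as a real number). -/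
def StCL : Prop := ∃ C : ℝ, 0 < C ∧ ∀ (w : ℝ) (a : ℕ → ℤ) (y p r : ℕ), p.Prime → w < (p : ℝ) →
  2 * p ≤ y → (y : ℝ) / p ≤ w → ∀ F : Finset ℕ, (∀ n ∈ F, n ≤ y ∧ n % p = r ∧ Avd w a n) →
  (F.card : ℝ) ≤ C * (y / p) / Real.log (y / p)

/-- PA (60 lines). Two different numbers have few common residues modulo large primes.

Proof. Let `S` be the set of the `s ∈ R` with `n % s = n' % s`. All `s ∈ S` divide `|n - n'| ∈ [1, y]`, so does their product (different primes), so `2^#S ≤ ∏ s ≤ y` and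
`#S ≤ log y / log 2 ≤ 2 log y`. For `s > w ≥ 4`: `(s-1)/(s-2) = 1 + 1/(s-2) ≤ exp(1/(s-2)) ≤ exp(2/w)` (`s - 2 ≥ w/2`). So the product is at most `exp(2 #S / w) ≤ exp(4 log y / w)`. -/
def StPA : Prop := ∀ (R : Finset ℕ) (w : ℝ) (y n n' : ℕ), 4 ≤ w → (∀ s ∈ R, s.Prime ∧ w < (s : ℝ)) →
  n ≤ y → n' ≤ y → n ≠ n' →
  ∏ s ∈ R.filter (fun s => n % s = n' % s), (((s : ℝ) - 1) / ((s : ℝ) - 2)) ≤ Real.exp (4 * Real.log y / w)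

/-- WI (80 lines; theorem hWI (h : Pool.Agent.Helper60.GP.StM1) : StWI). Primes in a short window (logarithmic scale).

Proof. `u = Z^(1 - i/(4k²))`, `v = Z^(1 - (i+1)/(4k²))`, `1 ≤ v ≤ u ≤ Z` (`(i+1)/(4k²) ≤ 1/2` as `i < k`). `StM1` at `u` and `v`: `∑_{v < p ≤ u} log p / p ≥ log u - log v - 2C = log Z/(4k²) - 2C ≥ log Z/(8k²)`
if `K ≥ 16 C`. Every term is at most `log Z · (1/p)`, divide by `log Z > 0`. -/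
def StWI : Prop := ∃ K : ℝ, 1 ≤ K ∧ ∀ (Z : ℝ) (k i : ℕ), 1 < Z → i < k → K * (k : ℝ) ^ 2 ≤ Real.log Z →
  1 / (8 * (k : ℝ) ^ 2) ≤
    ∑ p ∈ Pr (Z ^ (1 - ((i : ℝ) + 1) / (4 * (k : ℝ) ^ 2))) (Z ^ (1 - (i : ℝ) / (4 * (k : ℝ) ^ 2))), 1 / (p : ℝ)

/-- DA (150 lines; theorem hDA (h1 : StSM) (h2 : StPQ) (h3 : StLO) : StDA). Deterministic survivors, small `z`: products `m q`.

Proof. Constants of `StLO`: `c₁, κ, X₀`; `x₀ ≥ X₀` and `x₀ ≥ 8`. `U = y / (8x)` (integer part; `U ≥ 8`, `U ≥ y/(16x) ≥ (y/x)^(1/3)`). For `m ≤ U` without prime factors in `BB w a` let `n₀ = e2 a * m ≤ 2U ≤ y/(4x)`,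
`X = y / (2 n₀)` (integer part), `X ≥ x` (as `y/(2n₀) ≥ 2x`), and `F_m` from `StLO` (`P = 1`; `w ≤ x^κ ≤ X^κ`). `D = ⋃_m {n₀ q : q ∈ F_m}`; all elements are `≤ n₀ 2X ≤ y`. A prime factor `p > w`
of `n₀ q`: `p ∣ n₀` is impossible (`n₀ ≤ y/(4x) ≤ w/4 < p`), so `p = q > X ≥ x`. The pairs `(m, q)` give different elements: `n₀ q = n₀' q'`, `q ∤ n₀'` (`n₀' ≤ w/4 ≤ x < q`), so `q = q'`, `m = m'`.
Count: `#D = ∑_m #F_m ≥ ∑_m c₁ (X_m / log X_m) Π_Q`, `X_m ≥ y/(4 n₀) ≥ y/(8m)`, `log X_m ≤ log y ≤ 2 log x` (`y ≤ x w ≤ x²`), so by `StSM` (`B = BB w a`)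
`#D ≥ c₁ Π_Q (y/(16 log x)) ∑_m 1/m ≥ c₁ (y/(16 log x)) Π_Q Π_B log U ≥ c₁ (y/(16 log x)) (c₂/log w) (1/3) log (y/x)`. -/
def StDA : Prop := ∃ c κ x₀ : ℝ, 0 < c ∧ 0 < κ ∧ κ ≤ 1 / 4 ∧ 8 ≤ x₀ ∧
  ∀ (x y : ℕ) (w : ℝ) (a : ℕ → ℤ), x₀ ≤ x → 3 ≤ w → w ≤ (x : ℝ) ^ κ → 64 * x ≤ y → (y : ℝ) ≤ x * w →
  ∃ D : Finset ℕ, (∀ n ∈ D, 1 ≤ n ∧ n ≤ y ∧ Avd w a n) ∧
    (∀ n ∈ D, ∀ p : ℕ, p.Prime → w < (p : ℝ) → p ∣ n → x < p) ∧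
    c * (y / Real.log x) * (Real.log (y / x) / Real.log w) ≤ D.card

/-- DB (250 lines; theorem hDB (h1 : StSM) (h2 : StPQ) (h3 : StLO) (h4 : StWI) : StDB). Deterministic survivors, large `z`: products `m p₀ ... p_(k-3) q` without
prime factors bigger than `Z³`, `Z = y^(1/k)`.

Proof. `I_i = Pr (Z^(1-(i+1)/(4k²))) (Z^(1-i/(4k²)))`, `i < k` (pairwise disjoint: the windows of real numbers are), `k - 2` of them are used. `U = ⌊Z^(1/4)⌋₊`, `m ≤ U` without prime factors in `BB w a`,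
`f ∈ Fintype.piFinset (fun i : Fin (k-2) => I_i)`, `P_f = ∏ f i`. `Z^(k-2-1/8) ≤ P_f ≤ Z^(k-2)` (`∑_{i<k-2} (i+1)/(4k²) ≤ (k-2)(k-1)/(8k²) ≤ 1/8`). All prime factors of `P_f` are the `f i > Z^(1/2) ≥ w`.
`n₀ = e2 a * m * P_f`, `X = ⌊y/(2 n₀)⌋` : `y/(2n₀) ≥ Z^k/(4 Z^(1/4) Z^(k-2)) = Z^(7/4)/4 ≥ Z + 1`, so `X ≥ Z`, `X ≥ y/(4 n₀)`, and `2X ≤ y/n₀ ≤ Z^(17/8) ≤ Z³`. `F_{m,f}` from `StLO` (`w ≤ Z^κ ≤ X^κ`).
`D = ⋃ {n₀ q : q ∈ F_{m,f}}`; elements `≤ y`, all prime factors are `≤ Z³`. Different triples `(m, f, q)` give different elements: `q > Z` is a prime and all prime factors of `n₀` are `≤ Z` (`e2 a ≤ 2`,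
`m ≤ Z^(1/4)`, `f i ≤ Z`), so `n₀ q = n₀' q'` gives `q = q'`, `n₀ = n₀'`; `f i` is a prime `> Z^(1/2) > max 2 (Z^(1/4))`, so it divides `P_{f'}`, `f i = f' j`, and the disjointness of the windows gives `i = j`;
so `f = f'`, `m = m'`. Count: `#D = ∑ #F_{m,f} ≥ ∑ c₁ (X/log X) Π_Q`, `X ≥ y/(4n₀) ≥ y/(8 m P_f)`, `log X ≤ 3 log Z`. So
`#D ≥ c₁ Π_Q (y/(24 log Z)) (∑_m 1/m) (∑_f 1/P_f)`, `∑_m 1/m ≥ Π_B log U ≥ Π_B (log Z)/8`, `∑_f 1/P_f = ∏_i ∑_{p ∈ I_i} 1/p ≥ (1/(8k²))^(k-2)` (`Finset.prod_univ_sum`), `Π_Q Π_B ≥ c₂/log w`.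
(`K₁` is bigger than the `K` of `StWI` and so big that `log Z ≥ K₁` gives everything needed for large `Z`, such as `Z ≥ X₀`, `Z^(7/4)/4 ≥ Z + 1`.) -/
def StDB : Prop := ∃ c κ K₁ : ℝ, 0 < c ∧ 0 < κ ∧ κ ≤ 1 / 4 ∧ 1 ≤ K₁ ∧
  ∀ (k y : ℕ) (w Z : ℝ) (a : ℕ → ℤ), 3 ≤ k → 1 ≤ Z → Z ^ k = (y : ℝ) → 3 ≤ w → w ≤ Z ^ κ →
  K₁ * (k : ℝ) ^ 2 ≤ Real.log Z →
  ∃ D : Finset ℕ, (∀ n ∈ D, 1 ≤ n ∧ n ≤ y ∧ Avd w a n) ∧
    (∀ n ∈ D, ∀ p : ℕ, p.Prime → p ∣ n → (p : ℝ) ≤ Z ^ 3) ∧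
    c * (y / Real.log w) * (1 / (8 * (k : ℝ) ^ 2)) ^ k ≤ D.card

/-- SG (40 lines). `∑_{w < s ≤ z} 1/s`.

Proof. `JC.offSum_mert` with `a = fun _ => 1`, `b = 0` (`1` is not `≡ 0` modulo a prime): `Pr w z` is the index set. -/
def StSG : Prop := ∃ C : ℝ, 0 < C ∧ ∀ w z : ℝ, 2 ≤ w → w ≤ z →
  Real.log w * Real.exp (∑ s ∈ Pr w z, 1 / (s : ℝ)) ≤ C * Real.log z

/-- TL (80 lines; theorem hTL (h : Pool.Agent.Helper60.GP.StM1) : StTL). Primes in `(x/T, x]`.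

Proof. First part: `JC.window` with `a = fun _ => 1`, `b = 0`. Second part: `Chebyshev.eventually_primeCounting_le` (`ε = 1`; or any Chebyshev bound) for large `x`. -/
def StTL : Prop := ∃ C x₀ : ℝ, 0 < C ∧ 4 ≤ x₀ ∧ ∀ (x : ℕ) (T : ℝ), x₀ ≤ x → 2 ≤ T → T * T ≤ x →
  ∑ p ∈ Pr ((x : ℝ) / T) x, 1 / (p : ℝ) ≤ C * Real.log T / Real.log x ∧
  ((Pr ((x : ℝ) / T) x).card : ℝ) ≤ C * x / Real.log x

end Pool.Agent.Helper13.RS
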